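import Pool.Agent.Y756.Mid
import Pool.Agent.W184.Const

set_option autoImplicit false

/-! The closure argument with lines on both sides of the critical line. -/

namespace Pool.Agent.Y756

open MeasureTheory Filter Topology Pool.Agent.H306R2 Pool.Agent.W184

/-- the mean of `|ζ|^{2/v}` on the line `1/2 + w/log T` -/
noncomputable def Jm (v : ℕ) (w T : ℝ) : ℝ :=
  ∫ t in (0:ℝ)..T, zn (1 / 2 + w / Real.log T) t ^ (2 / (v:ℝ))

/-- the mean of `|ζ - S^v|^{2/v}` on the line `1/2 + w/log T` -/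
noncomputable def Km (v : ℕ) (w T : ℝ) : ℝ :=
  ∫ t in (0:ℝ)..T, qn (QQ v T) (2 / (v:ℝ)) (1 / 2 + w / Real.log T) t

/-- the mean of `|S|^2` on the line `1/2 + w/log T` -/
noncomputable def Dm (v : ℕ) (w T : ℝ) : ℝ :=
  ∫ t in (0:ℝ)..T, sn v T (1 / 2 + w / Real.log T) t

variable {v : ℕ}

lemma ev_small (w : ℝ) : ∀ᶠ T : ℝ in atTop, w / Real.log T < 1 / 8 :=
  (delta_tendsto w).eventually (gt_mem_nhds (by norm_num))

lemma tri_ev1 (hv : 2 ≤ v) (w : ℝ) : ∀ᶠ T : ℝ in atTop, Jm v w T ≤ Dm v w T + Km v w T := by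
  obtain ⟨-, -, k3, k4⟩ := kv hv
  filter_upwards [ev_small w, eventually_ge_atTop 0] with T h1 h2
  exact int_add_le (zp_cont (by linarith) k3) (sn_cont T _) (qn_cont (QQ_diff T) k3 (by linarith)) h2
    (tri1 hv T _)

lemma tri_ev2 (hv : 2 ≤ v) (w : ℝ) : ∀ᶠ T : ℝ in atTop, Km v w T ≤ Jm v w T + Dm v w T := by
  obtain ⟨-, -, k3, k4⟩ := kv hv
  filter_upwards [ev_small w, eventually_ge_atTop 0] with T h1 h2
  exact int_add_le (qn_cont (QQ_diff T) k3 (by linarith)) (zp_cont (by linarith) k3) (sn_cont T _) h2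
    (tri2 hv T _)

lemma tri_ev3 (hv : 2 ≤ v) (w : ℝ) : ∀ᶠ T : ℝ in atTop, Dm v w T ≤ Jm v w T + Km v w T := by
  obtain ⟨-, -, k3, k4⟩ := kv hv
  filter_upwards [ev_small w, eventually_ge_atTop 0] with T h1 h2
  exact int_add_le (sn_cont T _) (zp_cont (by linarith) k3) (qn_cont (QQ_diff T) k3 (by linarith)) h2
    (tri3 hv T _)

/-- bound for `Km` on the right of the critical line -/
theorem Km_ev (hv : 2 ≤ v) {x w C : ℝ} (hx : 0 < x) (hw : 0 ≤ w)
    (hC : Real.exp (-(2 / (v:ℝ) * w)) * ((aF (1 / (v:ℝ)) * gI (1 / (v:ℝ)) x +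
      Real.exp (-(2 / (v:ℝ) * x)) * (aF (1 / (v:ℝ)) * gI (1 / (v:ℝ)) (-x))) /
        (1 - Real.exp (-(2 / (v:ℝ) * x)))) < C) :
    ∀ᶠ T : ℝ in atTop, Km v w T ≤ C * MM v T := by
  obtain ⟨k1, k2, k3, k4⟩ := kv hv
  have hv0 : (0:ℝ) < v := by exact_mod_cast (by omega : 0 < v)
  set p : ℝ := 2 / (v:ℝ) with hp
  set a : ℝ := aF (1 / (v:ℝ)) * gI (1 / (v:ℝ)) x with ha
  set b : ℝ := aF (1 / (v:ℝ)) * gI (1 / (v:ℝ)) (-x) with hb
  set E1 : ℝ := Real.exp (p * x) with hE1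
  set E2 : ℝ := Real.exp (-(p * (x + x))) with hE2
  set E3 : ℝ := Real.exp (-(p * (w + x))) with hE3
  have hE10 : 0 < E1 := Real.exp_pos _
  have hE20 : 0 < E2 := Real.exp_pos _
  have hE30 : 0 < E3 := Real.exp_pos _
  have hq : E2 * E1 = Real.exp (-(p * x)) := by rw [hE1, hE2, ← Real.exp_add]; congr 1; ring
  have hq1 : E2 * E1 < 1 := by
    rw [hq, Real.exp_lt_one_iff]
    have : 0 < p * x := by positivity
    linarith
  set Φ : ℝ → ℝ := fun η => (E3 + η) * (E1 * ((a + η + (E2 + η) * (E1 * η + b + η + η)) /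
    (1 - (E2 + η) * E1)) + (E1 * η + b + η) + η) with hΦ
  have hΦ0 : Φ 0 < C := by
    refine lt_of_eq_of_lt ?_ hC
    simp only [hΦ]
    have hne : 1 - E2 * E1 ≠ 0 := by linarith
    have e1 : E3 * E1 = Real.exp (-(p * w)) := by rw [hE1, hE3, ← Real.exp_add]; congr 1; ring
    rw [← hq, ← e1]
    simp only [add_zero, mul_zero, zero_add]
    have h12 : E1 * (E2 * E1) = 1 := by
      rw [hq, hE1, ← Real.exp_add, add_neg_cancel, Real.exp_zero]
    have e2 : E1 * ((a + E2 * b) / (1 - E2 * E1)) + b = (E1 * a + b) / (1 - E2 * E1) := by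
      rw [eq_div_iff hne]
      have : (E1 * ((a + E2 * b) / (1 - E2 * E1)) + b) * (1 - E2 * E1) =
          E1 * ((a + E2 * b) / (1 - E2 * E1) * (1 - E2 * E1)) + b * (1 - E2 * E1) := by ring
      rw [this, div_mul_cancel₀ _ hne]
      ring
    have e3 : E1 * a + b = E1 * (a + E2 * E1 * b) := by linear_combination (-b) * h12
    rw [e2, e3]
    ring
  have hcont : ContinuousAt Φ 0 := by
    simp only [hΦ]
    refine ContinuousAt.mul (by fun_prop) (ContinuousAt.add (ContinuousAt.add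
      (ContinuousAt.mul (by fun_prop) (ContinuousAt.div (by fun_prop) (by fun_prop) ?_)) (by fun_prop))
      (by fun_prop))
    simp only [add_zero]
    linarith
  have hcont2 : ContinuousAt (fun η : ℝ => (E2 + η) * E1) 0 := by fun_prop
  have h1 : ∀ᶠ η in 𝓝[>] (0:ℝ), Φ η < C :=
    (hcont.eventually (gt_mem_nhds hΦ0)).filter_mono nhdsWithin_le_nhds
  have h2 : ∀ᶠ η in 𝓝[>] (0:ℝ), (E2 + η) * E1 < 1 := by
    refine (hcont2.eventually (gt_mem_nhds ?_)).filter_mono nhdsWithin_le_nhds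
    simpa using hq1
  obtain ⟨η, hη1, hη2, hη⟩ := (h1.and (h2.and self_mem_nhdsWithin)).exists
  have hη0 : 0 < η := hη
  have s1 := half_ev2 hv hx.le hx.le (by linarith : 0 < x + x) hη0
  have s2 := half_ev2 hv hw hx.le (by linarith : 0 < w + x) hη0
  have s4 := S_ev2 hv (-x) hη0
  have s5 := fe_ev hv hx.le hη0
  have s7 := S_ev2 hv x hη0
  filter_upwards [s1, s2, tri_ev2 hv (-x), s4, s5, tri_ev1 hv x, s7, eventually_gt_atTop 1]
    with T r1 r2 r3 r4 r5 r6 r7 hT1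
  have hM := MM_pos (v := v) hT1
  have en : (1 / 2 + -x / Real.log T) = 1 / 2 - x / Real.log T := by ring
  have r4' := r4.1
  have r7' := r7.1
  unfold Jm Km Dm at r3 r6
  rw [en] at r3 r4'
  unfold Km
  set Kn := ∫ t in (0:ℝ)..T, qn (QQ v T) p (1 / 2 - x / Real.log T) t
  set Jn := ∫ t in (0:ℝ)..T, zn (1 / 2 - x / Real.log T) t ^ p
  set Dn := ∫ t in (0:ℝ)..T, sn v T (1 / 2 - x / Real.log T) t
  set J := ∫ t in (0:ℝ)..T, zn (1 / 2 + x / Real.log T) t ^ p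
  set D := ∫ t in (0:ℝ)..T, sn v T (1 / 2 + x / Real.log T) t
  set K := ∫ t in (0:ℝ)..T, qn (QQ v T) p (1 / 2 + x / Real.log T) t
  set M := MM v T
  have q1 : Kn ≤ E1 * J + (E1 * η + b + η) * M := by nlinarith
  have q2 : J ≤ (a + η) * M + (E2 + η) * (E1 * J + (E1 * η + b + η + η) * M) := by
    have : (E2 + η) * (Kn + η * M) ≤ (E2 + η) * (E1 * J + (E1 * η + b + η + η) * M) := by
      refine mul_le_mul_of_nonneg_left ?_ (by positivity)
      linarith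
    linarith
  have s5 : 0 < 1 - (E2 + η) * E1 := by linarith
  have q3 : J ≤ (a + η + (E2 + η) * (E1 * η + b + η + η)) / (1 - (E2 + η) * E1) * M := by
    rw [div_mul_eq_mul_div, le_div_iff₀ s5]
    linarith
  have q4 : Kn + η * M ≤ (E1 * ((a + η + (E2 + η) * (E1 * η + b + η + η)) / (1 - (E2 + η) * E1)) +
      (E1 * η + b + η) + η) * M := by
    have := mul_le_mul_of_nonneg_left q3 hE10.le
    linarith
  have q5 := mul_le_mul_of_nonneg_left q4 (show 0 ≤ E3 + η by positivity)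
  calc _ ≤ (E3 + η) * (Kn + η * M) := r2
    _ ≤ _ := q5
    _ = Φ η * M := by simp only [hΦ]; ring
    _ ≤ C * M := mul_le_mul_of_nonneg_right hη1.le hM.le

/-- upper bound for `Jm` on the right of the critical line -/
theorem Jm_up (hv : 2 ≤ v) {w C m : ℝ}
    (hK : ∀ᶠ T : ℝ in atTop, Km v w T ≤ m * MM v T)
    (hC : aF (1 / (v:ℝ)) * gI (1 / (v:ℝ)) w + m < C) :
    ∀ᶠ T : ℝ in atTop, Jm v w T ≤ C * MM v T := by
  have hη : 0 < C - (aF (1 / (v:ℝ)) * gI (1 / (v:ℝ)) w + m) := by linarith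
  filter_upwards [hK, S_ev2 hv w hη, tri_ev1 hv w] with T r1 r2 r3
  have r4 := r2.1
  unfold Dm at r3
  linarith

theorem Jm_lo (hv : 2 ≤ v) {w c m : ℝ}
    (hK : ∀ᶠ T : ℝ in atTop, Km v w T ≤ m * MM v T)
    (hc : c < aF (1 / (v:ℝ)) * gI (1 / (v:ℝ)) w - m) :
    ∀ᶠ T : ℝ in atTop, c * MM v T ≤ Jm v w T := by
  have hη : 0 < aF (1 / (v:ℝ)) * gI (1 / (v:ℝ)) w - m - c := by linarith
  filter_upwards [hK, S_ev2 hv w hη, tri_ev3 hv w] with T r1 r2 r3
  have r4 := r2.2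
  unfold Dm at r3
  linarith

/-- upper bound on the critical line -/
theorem up0 (hv : 2 ≤ v) {w B C : ℝ} (hw : 0 < w) (hJ : ∀ᶠ T : ℝ in atTop, Jm v w T ≤ B * MM v T)
    (hC : Real.exp (2 / (v:ℝ) * w / 2) * B < C) :
    ∀ᶠ T : ℝ in atTop, ∫ t in (0:ℝ)..T, zn (1 / 2) t ^ (2 / (v:ℝ)) ≤ C * MM v T := by
  set E := Real.exp (2 / (v:ℝ) * w / 2) with hE
  have hE0 : 0 < E := Real.exp_pos _
  have hcont : ContinuousAt (fun η : ℝ => (E + η) * (B + η)) 0 := by fun_prop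
  have h1 : ∀ᶠ η in 𝓝[>] (0:ℝ), (E + η) * (B + η) < C := by
    refine (hcont.eventually (gt_mem_nhds ?_)).filter_mono nhdsWithin_le_nhds
    simpa using hC
  obtain ⟨η, hη1, hη⟩ := (h1.and self_mem_nhdsWithin).exists
  have hη0 : 0 < η := hη
  filter_upwards [hJ, refl_ev hv hw hη0, eventually_gt_atTop 1] with T r1 r2 hT1
  have hM := MM_pos (v := v) hT1
  unfold Jm at r1
  refine r2.trans ?_
  calc (E + η) * ((∫ t in (0:ℝ)..T, zn (1 / 2 + w / Real.log T) t ^ (2 / (v:ℝ))) + η * MM v T) ≤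
      (E + η) * (B * MM v T + η * MM v T) := by gcongr
    _ = (E + η) * (B + η) * MM v T := by ring
    _ ≤ _ := mul_le_mul_of_nonneg_right hη1.le hM.le

/-- lower bound on the critical line -/
theorem lo0 (hv : 2 ≤ v) {w l b B c : ℝ} (hw : 0 < w) (hl : 0 < l)
    (hJ1 : ∀ᶠ T : ℝ in atTop, b * MM v T ≤ Jm v w T)
    (hJ2 : ∀ᶠ T : ℝ in atTop, Jm v (2 * w) T ≤ B * MM v T)
    (hc : c < l * (2 * b - l * B)) :
    ∀ᶠ T : ℝ in atTop, c * MM v T ≤ ∫ t in (0:ℝ)..T, zn (1 / 2) t ^ (2 / (v:ℝ)) := by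
  have hcont : ContinuousAt (fun η : ℝ => l * (b / (1 / 2 + η) - l * B - η)) 0 := by
    refine ContinuousAt.mul (by fun_prop) (ContinuousAt.sub (ContinuousAt.sub
      (ContinuousAt.div (by fun_prop) (by fun_prop) (by norm_num)) (by fun_prop)) (by fun_prop))
  have h1 : ∀ᶠ η in 𝓝[>] (0:ℝ), c < l * (b / (1 / 2 + η) - l * B - η) := by
    refine (hcont.eventually (lt_mem_nhds ?_)).filter_mono nhdsWithin_le_nhds
    refine lt_of_lt_of_eq hc ?_
    simp only [add_zero, sub_zero]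
    ring
  obtain ⟨η, hη1, hη⟩ := (h1.and self_mem_nhdsWithin).exists
  have hη0 : 0 < η := hη
  filter_upwards [hJ1, hJ2, mid_ev hv hw hl hη0, eventually_gt_atTop 1] with T r1 r2 r3 hT1
  have hM := MM_pos (v := v) hT1
  unfold Jm at r1 r2
  set Z0 := ∫ t in (0:ℝ)..T, zn (1 / 2) t ^ (2 / (v:ℝ))
  set Z1 := ∫ t in (0:ℝ)..T, zn (1 / 2 + w / Real.log T) t ^ (2 / (v:ℝ))
  set Z2 := ∫ t in (0:ℝ)..T, zn (1 / 2 + 2 * w / Real.log T) t ^ (2 / (v:ℝ))
  set M := MM v T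
  have q1 : b * M ≤ (1 / 2 + η) * (l * (B * M) + l⁻¹ * Z0 + η * M) := by
    refine (r1.trans r3).trans (mul_le_mul_of_nonneg_left ?_ (by positivity))
    have := mul_le_mul_of_nonneg_left r2 hl.le
    linarith
  have q2 : b / (1 / 2 + η) * M ≤ l * (B * M) + l⁻¹ * Z0 + η * M := by
    rw [div_mul_eq_mul_div, div_le_iff₀ (by positivity)]
    linarith
  have q3 : l * (b / (1 / 2 + η) - l * B - η) * M ≤ Z0 := by
    have q4 := mul_le_mul_of_nonneg_left q2 hl.le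
    have q5 : l * (l * (B * M) + l⁻¹ * Z0 + η * M) = l * l * B * M + Z0 + l * η * M := by
      field_simp
    rw [q5] at q4
    linarith
  exact (mul_le_mul_of_nonneg_right hη1.le hM.le).trans q3

end Pool.Agent.Y756
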