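import Pool.Agent.Y756.HalfM

set_option autoImplicit false

/-! Asymptotic forms, lines at distance `δ / log T` on both sides of the critical line. -/

namespace Pool.Agent.Y756

open MeasureTheory Filter Topology Pool.Agent.H306R2 Pool.Agent.W184

variable {v : ℕ}

/-- `N_T ^ (2|δ|/log T)` is bounded -/
lemma NT_rpow_le {δ T : ℝ} (hδ : 0 ≤ δ) (hT : 1 < T) (h1 : 1 ≤ NT T) (h2 : (NT T : ℝ) ≤ T) :
    (NT T : ℝ) ^ (2 * (δ / Real.log T)) ≤ Real.exp (2 * δ) := by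
  have hL := Real.log_pos hT
  have hN0 : (0:ℝ) < NT T := by exact_mod_cast h1
  rw [Real.rpow_def_of_pos hN0]
  refine Real.exp_le_exp.mpr ?_
  have h3 : Real.log (NT T) ≤ Real.log T := Real.log_le_log hN0 h2
  calc Real.log (NT T) * (2 * (δ / Real.log T)) ≤ Real.log T * (2 * (δ / Real.log T)) :=
        mul_le_mul_of_nonneg_right h3 (by positivity)
    _ = 2 * δ := by field_simp

lemma sn_mv2 (hv : 2 ≤ v) (T : ℝ) {σ Δ : ℝ} (hσ : 1 / 2 - Δ ≤ σ) (hΔ : 0 ≤ Δ) (A B : ℝ) :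
    |(∫ t in A..B, sn v T σ t) - (B - A) * ∑ n ∈ Finset.Icc 1 (NT T), dv (1 / (v:ℝ)) n ^ 2 *
      (n : ℝ) ^ (-(2 * σ))| ≤ (NT T : ℝ) ^ (2 * Δ) * (6 * ((NT T : ℝ) * (1 + Real.log (NT T)))) := by
  obtain ⟨h1, h2, -, -⟩ := kv hv
  have := mv_DS2 (g := dv (1 / (v:ℝ))) (fun n => dv_nonneg h1.le n) (fun n => dv_le_one h1.le h2 n) hσ hΔ
    (NT T) A B
  rw [show 6 * ((NT T : ℝ) * (1 + Real.log (NT T))) = 6 * (NT T : ℝ) * (1 + Real.log (NT T)) by ring]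
  exact this

lemma S_ev2 (hv : 2 ≤ v) (δ : ℝ) {η : ℝ} (hη : 0 < η) :
    ∀ᶠ T : ℝ in atTop, (∫ t in (0:ℝ)..T, sn v T (1 / 2 + δ / Real.log T) t) ≤
        (aF (1 / (v:ℝ)) * gI (1 / (v:ℝ)) δ + η) * MM v T ∧
      (aF (1 / (v:ℝ)) * gI (1 / (v:ℝ)) δ - η) * MM v T ≤
        (∫ t in (0:ℝ)..T, sn v T (1 / 2 + δ / Real.log T) t) := by
  obtain ⟨h1, h2, -, -⟩ := kv hv
  have hc := coef_tendsto (κ := 1 / (v:ℝ)) (δ := δ) h1
  have e1 := hc.eventually_lt_const (show aF (1 / (v:ℝ)) * gI (1 / (v:ℝ)) δ <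
    aF (1 / (v:ℝ)) * gI (1 / (v:ℝ)) δ + η / 2 by linarith)
  have e2 := hc.eventually_const_lt (show aF (1 / (v:ℝ)) * gI (1 / (v:ℝ)) δ - η / 2 <
    aF (1 / (v:ℝ)) * gI (1 / (v:ℝ)) δ by linarith)
  have e3 := CT_le (v := v) (by omega) (Real.exp (2 * |δ|) * 6) (show 0 < η / 2 by linarith)
  filter_upwards [e1, e2, e3, NT_ev, eventually_gt_atTop 1] with T a1 a2 a3 a4 a5
  have hL := Real.log_pos a5
  have hLp : 0 < Real.log T ^ ((1 / (v:ℝ)) ^ 2) := by positivity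
  rw [div_lt_iff₀ hLp] at a1
  rw [lt_div_iff₀ hLp] at a2
  have hm := sn_mv2 hv T (σ := 1 / 2 + δ / Real.log T) (Δ := |δ| / Real.log T) (by
    have : -(|δ| / Real.log T) ≤ δ / Real.log T := by
      rw [← neg_div]
      exact div_le_div_of_nonneg_right (neg_abs_le δ) hL.le
    linarith) (by positivity) 0 T
  rw [sub_zero] at hm
  have hT0 : 0 < T := by linarith
  have hN0 : (0:ℝ) < NT T := by exact_mod_cast a4.1
  have hb : (NT T : ℝ) ^ (2 * (|δ| / Real.log T)) * (6 * ((NT T : ℝ) * (1 + Real.log (NT T)))) ≤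
      Real.exp (2 * |δ|) * 6 * T := by
    have b1 := NT_rpow_le (abs_nonneg δ) a5 a4.1 a4.2.2
    calc _ ≤ Real.exp (2 * |δ|) * (6 * T) := by
          refine mul_le_mul b1 (by linarith [a4.2.1]) ?_ (Real.exp_pos _).le
          have : 0 ≤ Real.log (NT T) := Real.log_natCast_nonneg _
          positivity
      _ = _ := by ring
  have hm' := abs_le.mp (hm.trans hb)
  set W := ∑ n ∈ Finset.Icc 1 (NT T), dv (1 / (v:ℝ)) n ^ 2 * (n : ℝ) ^ (-(2 * (1 / 2 + δ / Real.log T)))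
  unfold MM at a3 ⊢
  constructor
  · nlinarith [hm'.1, hm'.2, mul_lt_mul_of_pos_left a1 hT0]
  · nlinarith [hm'.1, hm'.2, mul_lt_mul_of_pos_left a2 hT0]

lemma edges_sn2 (hv : 2 ≤ v) {δ : ℝ} (hδ : 0 ≤ δ) : ∀ᶠ T : ℝ in atTop,
    (∫ t in (-(T ^ ((1:ℝ)/4)))..0, sn v T (1 / 2 - δ / Real.log T) t) +
      ∫ t in T..(T + T ^ ((1:ℝ)/4)), sn v T (1 / 2 - δ / Real.log T) t ≤
      Real.exp (2 * δ) * 14 * T := by
  obtain ⟨h1, h2, -, -⟩ := kv hv
  have h4 := small_pow (1 / 4 - 1) 1 2 (by norm_num)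
  filter_upwards [NT_ev, h4, eventually_gt_atTop (Real.exp 1)] with T a1 a2 a3
  have hT1 : 1 < T := lt_trans (by
    have := Real.add_one_lt_exp (show (1:ℝ) ≠ 0 by norm_num)
    linarith) a3
  have hT0 : 0 < T := by linarith
  have hlog : 1 ≤ Real.log T := by
    rw [Real.le_log_iff_exp_le hT0]; exact a3.le
  have hL : 0 < Real.log T := by linarith
  have hN0 : (0:ℝ) < NT T := by exact_mod_cast a1.1
  have hE := NT_rpow_le hδ hT1 a1.1 a1.2.2
  have hlogN : 0 ≤ Real.log (NT T) := Real.log_natCast_nonneg _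
  set E := Real.exp (2 * δ) with hEdef
  have hE0 : 0 < E := Real.exp_pos _
  have hs : ∑ n ∈ Finset.Icc 1 (NT T), dv (1 / (v:ℝ)) n ^ 2 * (n : ℝ) ^ (-(2 * (1 / 2 - δ / Real.log T))) ≤
      E * (1 + Real.log (NT T)) := by
    have hs0 : ∑ n ∈ Finset.Icc 1 (NT T), E * (1 / (n:ℝ)) ≤ E * (1 + Real.log (NT T)) := by
      rw [← Finset.mul_sum]
      exact mul_le_mul_of_nonneg_left (harm_le (NT T)) hE0.le
    refine le_trans (Finset.sum_le_sum fun n hn => ?_) hs0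
    rw [Finset.mem_Icc] at hn
    have hn0 : (0:ℝ) < n := by exact_mod_cast hn.1
    have hnN : (n:ℝ) ≤ NT T := by exact_mod_cast hn.2
    rw [show -(2 * (1 / 2 - δ / Real.log T)) = 2 * (δ / Real.log T) + (-1) by ring, Real.rpow_add hn0,
      Real.rpow_neg_one]
    have h5 : dv (1 / (v:ℝ)) n ^ 2 ≤ 1 := pow_le_one₀ (dv_nonneg h1.le n) (dv_le_one h1.le h2 n)
    have h6 : (0:ℝ) ≤ (n:ℝ)⁻¹ := by positivity
    have h7 : (n:ℝ) ^ (2 * (δ / Real.log T)) ≤ E :=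
      (Real.rpow_le_rpow hn0.le hnN (by positivity)).trans hE
    calc dv (1 / (v:ℝ)) n ^ 2 * ((n:ℝ) ^ (2 * (δ / Real.log T)) * (n:ℝ)⁻¹) ≤ 1 * (E * (n:ℝ)⁻¹) := by
          gcongr
      _ = E * (1 / (n:ℝ)) := by rw [one_mul, one_div]
  have hU : T ^ ((1:ℝ)/4) * (1 + Real.log (NT T)) ≤ T := by
    have h6 : Real.log (NT T) ≤ Real.log T := Real.log_le_log hN0 a1.2.2
    have h7 : T ^ ((1:ℝ)/4) * (2 * Real.log T) ≤ T := by
      have h8 : T ^ ((1:ℝ)/4) = T ^ ((1:ℝ)/4 - 1) * T := by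
        rw [← Real.rpow_add_one hT0.ne']; congr 1; ring
      rw [Real.rpow_one] at a2
      rw [h8]
      calc T ^ ((1:ℝ)/4 - 1) * T * (2 * Real.log T) = (2 * (T ^ ((1:ℝ)/4 - 1) * Real.log T)) * T := by ring
        _ ≤ 1 * T := mul_le_mul_of_nonneg_right a2 hT0.le
        _ = T := one_mul T
    refine le_trans (mul_le_mul_of_nonneg_left ?_ (by positivity)) h7
    linarith
  have hU0 : 0 < T ^ ((1:ℝ)/4) := Real.rpow_pos_of_pos hT0 _
  have hb : (NT T : ℝ) ^ (2 * (δ / Real.log T)) * (6 * ((NT T : ℝ) * (1 + Real.log (NT T)))) ≤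
      E * (6 * T) := by
    refine mul_le_mul hE (by linarith [a1.2.1]) (by positivity) hE0.le
  have m1 := (abs_le.mp ((sn_mv2 hv T (σ := 1 / 2 - δ / Real.log T) le_rfl (by positivity)
    (-(T ^ ((1:ℝ)/4))) 0).trans hb)).2
  have m2 := (abs_le.mp ((sn_mv2 hv T (σ := 1 / 2 - δ / Real.log T) le_rfl (by positivity)
    T (T + T ^ ((1:ℝ)/4))).trans hb)).2
  rw [show 0 - -(T ^ ((1:ℝ)/4)) = T ^ ((1:ℝ)/4) by ring] at m1
  rw [show T + T ^ ((1:ℝ)/4) - T = T ^ ((1:ℝ)/4) by ring] at m2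
  have h9 := mul_le_mul_of_nonneg_left hs hU0.le
  have h10 : E * (T ^ ((1:ℝ)/4) * (1 + Real.log (NT T))) ≤ E * T := mul_le_mul_of_nonneg_left hU hE0.le
  have h11 : T ^ ((1:ℝ)/4) * (E * (1 + Real.log (NT T))) = E * (T ^ ((1:ℝ)/4) * (1 + Real.log (NT T))) := by
    ring
  rw [h11] at h9
  linarith

lemma fac2_tendsto (p δ δ' : ℝ) (M : ℕ) (hp : 0 < p) :
    Tendsto (fun T : ℝ => ((1 + 8 * (δ' / Real.log T)) ^ p)⁻¹ *
      ((1 - 8 * (δ / Real.log T)) * (NT T : ℝ) ^ (δ / Real.log T + δ' / Real.log T) /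
      (1 + (δ / Real.log T + δ' / Real.log T)) ^ (2 * M)) ^ p) atTop (𝓝 (Real.exp (p * (δ + δ')))) := by
  have h1 : Tendsto (fun T : ℝ => 1 - 8 * (δ / Real.log T)) atTop (𝓝 (1 - 8 * 0)) :=
    ((delta_tendsto δ).const_mul 8).const_sub 1
  have h1' : Tendsto (fun T : ℝ => 1 + 8 * (δ' / Real.log T)) atTop (𝓝 (1 + 8 * 0)) :=
    ((delta_tendsto δ').const_mul 8).const_add 1
  have h2 : Tendsto (fun T : ℝ => (1 + (δ / Real.log T + δ' / Real.log T)) ^ (2 * M)) atTop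
      (𝓝 ((1 + (0 + 0)) ^ (2 * M))) :=
    (((delta_tendsto δ).add (delta_tendsto δ')).const_add 1).pow _
  have h3 : Tendsto (fun T : ℝ => (NT T : ℝ) ^ (δ / Real.log T + δ' / Real.log T)) atTop
      (𝓝 (Real.exp ((δ + δ') * 1))) := by
    have h4 := (Real.continuous_exp.tendsto _).comp (logN_tendsto.const_mul (δ + δ'))
    refine h4.congr' ?_
    filter_upwards [NT_ev] with T hT
    have hN0 : (0:ℝ) < NT T := by exact_mod_cast hT.1
    simp only [Function.comp]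
    rw [Real.rpow_def_of_pos hN0]
    congr 1
    ring
  have h5 := ((h1'.rpow_const (p := p) (Or.inr hp.le)).inv₀ (by norm_num)).mul
    (((h1.mul h3).div h2 (by norm_num)).rpow_const (p := p) (Or.inr hp.le))
  refine h5.trans (le_of_eq ?_)
  congr 1
  simp only [mul_zero, sub_zero, one_mul, add_zero, one_pow, div_one, Real.one_rpow, inv_one, mul_one]
  rw [← Real.exp_mul]
  congr 1; ring

theorem half_ev2 (hv : 2 ≤ v) {δ δ' : ℝ} (hδ : 0 ≤ δ) (hδ' : 0 ≤ δ') (hs : 0 < δ + δ') {η : ℝ} (hη : 0 < η) :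
    ∀ᶠ T : ℝ in atTop, ∫ t in (0:ℝ)..T, qn (QQ v T) (2 / (v:ℝ)) (1 / 2 + δ / Real.log T) t ≤
      (Real.exp (-(2 / (v:ℝ) * (δ + δ'))) + η) *
        ((∫ t in (0:ℝ)..T, qn (QQ v T) (2 / (v:ℝ)) (1 / 2 - δ' / Real.log T) t) + η * MM v T) := by
  obtain ⟨h1, h2, h3, h4⟩ := kv hv
  have hv0 : (0:ℝ) < v := by exact_mod_cast (by omega : 0 < v)
  have hF := fac2_tendsto (2 / (v:ℝ)) δ δ' (8 * v) h3
  have hΔ1 : ∀ᶠ T : ℝ in atTop, δ / Real.log T ≤ 1 / 8 :=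
    ((delta_tendsto δ).eventually (gt_mem_nhds (show (0:ℝ) < 1/8 by norm_num))).mono fun _ h => h.le
  have hΔ1' : ∀ᶠ T : ℝ in atTop, δ' / Real.log T ≤ 1 / 8 :=
    ((delta_tendsto δ').eventually (gt_mem_nhds (show (0:ℝ) < 1/8 by norm_num))).mono fun _ h => h.le
  set E := Real.exp (2 * δ') with hE
  have hE0 : 0 < E := Real.exp_pos _
  have hCT := CT_le (v := v) (by omega) (73 + 14 * E) hη
  have hsm := small_pow (4 - 29 / 4) 1 (26 * (2 * Real.pi * (1 / (δ + δ')))) (by norm_num)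
  have hev : ∀ᶠ T : ℝ in atTop, (((1 + 8 * (δ' / Real.log T)) ^ (2 / (v:ℝ)))⁻¹ *
      ((1 - 8 * (δ / Real.log T)) * (NT T : ℝ) ^ (δ / Real.log T + δ' / Real.log T) /
      (1 + (δ / Real.log T + δ' / Real.log T)) ^ (2 * (8 * v))) ^ (2 / (v:ℝ))) *
        (∫ t in (0:ℝ)..T, qn (QQ v T) (2 / (v:ℝ)) (1 / 2 + δ / Real.log T) t) ≤
      (∫ t in (0:ℝ)..T, qn (QQ v T) (2 / (v:ℝ)) (1 / 2 - δ' / Real.log T) t) + η * MM v T := by
    filter_upwards [hΔ1, hΔ1', hCT, hsm, edges_sn2 hv hδ', NT_ev, eventually_gt_atTop 1]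
      with T a1 a1' a2 a3 a4 a5 a6
    have hT0 : 0 < T := by linarith
    have hL := Real.log_pos a6
    have hΔ0 : 0 ≤ δ / Real.log T := by positivity
    have hΔ0' : 0 ≤ δ' / Real.log T := by positivity
    have hΔs : 0 < δ / Real.log T + δ' / Real.log T := by
      rw [← add_div]; positivity
    have hN1 : (1:ℝ) ≤ NT T := by exact_mod_cast a5.1
    have hU0 : 0 < T ^ ((1:ℝ)/4) := Real.rpow_pos_of_pos hT0 _
    have hcz := zp_cont (σ := 1 / 2 - δ' / Real.log T) (p := 2 / (v:ℝ)) (by linarith) h3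
    have hcs := sn_cont (v := v) T (1 / 2 - δ' / Real.log T)
    have hcq := qn_cont (QQ_diff (v := v) T) (p := 2 / (v:ℝ)) (σ := 1 / 2 - δ' / Real.log T) h3 (by linarith)
    have hGB : ∀ x, qn (QQ v T) (2 / (v:ℝ)) (1 / 2 - δ' / Real.log T) x ≤ (12 + T ^ 2) * (1 + |x|) := by
      intro x
      have b1 := tri2 hv T (1 / 2 - δ' / Real.log T) x
      have b2 := zp_le (x := x) h3 h4 (σ := 1 / 2 - δ' / Real.log T) (by linarith) (by linarith)
      have b3 : sn v T (1 / 2 - δ' / Real.log T) x ≤ T ^ 2 := by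
        unfold sn
        refine pow_le_pow_left₀ (norm_nonneg _) ?_ 2
        refine (SS_le hv T ?_).trans a5.2.2
        have : ((((1 / 2 - δ' / Real.log T : ℝ)) : ℂ) + x * Complex.I).re = 1 / 2 - δ' / Real.log T := by
          simp
        rw [this]; linarith
      have b4 : 0 ≤ T ^ 2 * |x| := by positivity
      nlinarith
    have hEd : (∫ t in (-(T ^ ((1:ℝ)/4)))..0, qn (QQ v T) (2 / (v:ℝ)) (1 / 2 - δ' / Real.log T) t) +
      ∫ t in T..(T + T ^ ((1:ℝ)/4)), qn (QQ v T) (2 / (v:ℝ)) (1 / 2 - δ' / Real.log T) t ≤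
        (72 + 14 * E) * T := by
      have b1 := int_add_le hcq hcz hcs (a := -(T ^ ((1:ℝ)/4))) (b := 0) (by linarith)
        (tri2 hv T (1 / 2 - δ' / Real.log T))
      have b2 := int_add_le hcq hcz hcs (a := T) (b := T + T ^ ((1:ℝ)/4)) (by linarith)
        (tri2 hv T (1 / 2 - δ' / Real.log T))
      have b3 := edges_zp (p := 2 / (v:ℝ)) (σ := 1 / 2 - δ' / Real.log T) h3 h4 (by linarith)
        (by linarith) a6.le
      linarith
    have hM : (((8 * v : ℕ)) : ℝ) * (2 / (v:ℝ)) = 16 := by push_cast; field_simp; norm_num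
    have hQ1 : ∀ z : ℂ, 3 / 8 ≤ z.re → z.re ≤ 2 → ‖QQ v T z‖ ≤ (NT T : ℝ) ^ v := by
      intro z hz _
      unfold QQ
      rw [norm_pow]
      exact pow_le_pow_left₀ (norm_nonneg _) (SS_le hv T (by linarith)) v
    have hQ2 : ∀ z : ℂ, 2 ≤ z.re → ‖riemannZeta z - QQ v T z‖ * (NT T : ℝ) ^ z.re ≤
        (NT T:ℝ) ^ 2 * ∑' n : ℕ, 1 / (n : ℝ) ^ 2 := by
      intro z hz
      exact zeta_sub_pow_le (by omega) a5.1 hz
    have hmain := half_fix2 (T := T) h3 hN1 (show 1 ≤ 8 * v by omega) hM (QQ_diff T) hQ1 hQ2 hΔ0 hΔ0' hΔs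
      a1 a1' a6.le (by positivity) hGB hEd
    have hpp : 0 < (1 + 8 * (δ' / Real.log T)) ^ (2 / (v:ℝ)) := by positivity
    rw [mul_assoc, inv_mul_le_iff₀ hpp]
    refine hmain.trans (mul_le_mul_of_nonneg_left ?_ hpp.le)
    have htail : T * ((12 + T ^ 2) * (1 + T)) * (2 * Real.pi * (1 / (δ / Real.log T + δ' / Real.log T)) *
        (T ^ ((1:ℝ)/4)) ^ (-(29:ℝ))) ≤ T := by
      have b2 : (T ^ ((1:ℝ)/4)) ^ (-(29:ℝ)) = T ^ (-(29/4:ℝ)) := by
        rw [← Real.rpow_mul hT0.le]; norm_num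
      have b3 : T * ((12 + T ^ 2) * (1 + T)) ≤ 26 * T ^ (4:ℝ) := by
        have : T ^ (4:ℝ) = T ^ 4 := by exact_mod_cast Real.rpow_natCast T 4
        rw [this]
        have c0 : 1 ≤ T ^ 2 := one_le_pow₀ a6.le
        have c1 : 1 + T ≤ 2 * T := by linarith
        have c2 : 12 + T ^ 2 ≤ 13 * T ^ 2 := by linarith
        calc T * ((12 + T ^ 2) * (1 + T)) ≤ T * ((13 * T ^ 2) * (2 * T)) := by gcongr
          _ = 26 * T ^ 4 := by ring
      have b4 : T ^ (4:ℝ) * T ^ (-(29/4:ℝ)) = T ^ (4 - 29 / 4 : ℝ) := by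
        rw [← Real.rpow_add hT0]; congr 1
      rw [b2]
      have hpi := Real.pi_pos
      calc T * ((12 + T ^ 2) * (1 + T)) * (2 * Real.pi * (1 / (δ / Real.log T + δ' / Real.log T)) *
            T ^ (-(29/4:ℝ))) ≤
          (26 * T ^ (4:ℝ)) * (2 * Real.pi * (1 / (δ / Real.log T + δ' / Real.log T)) * T ^ (-(29/4:ℝ))) := by
            gcongr
        _ = 26 * (2 * Real.pi * (1 / (δ + δ'))) * (T ^ (4 - 29 / 4 : ℝ) * Real.log T ^ (1:ℝ)) := by
            rw [← b4, Real.rpow_one, ← add_div]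
            field_simp
        _ ≤ 1 := a3
        _ ≤ T := a6.le
    linarith
  have hD0 : ∀ᶠ T : ℝ in atTop, 0 ≤ ∫ t in (0:ℝ)..T, qn (QQ v T) (2 / (v:ℝ)) (1 / 2 - δ' / Real.log T) t := by
    filter_upwards [eventually_ge_atTop 0] with T hT
    exact intervalIntegral.integral_nonneg hT fun x _ => qn_nonneg _ _ _ _
  have := turn (v := v) (Real.exp_pos _) hη hF hev hD0
  rw [← Real.exp_neg] at this
  exact this

theorem fe_ev (hv : 2 ≤ v) {δ : ℝ} (hδ : 0 ≤ δ) {η : ℝ} (hη : 0 < η) :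
    ∀ᶠ T : ℝ in atTop, ∫ t in (0:ℝ)..T, zn (1 / 2 - δ / Real.log T) t ^ (2 / (v:ℝ)) ≤
      Real.exp (2 / (v:ℝ) * δ) * ((∫ t in (0:ℝ)..T, zn (1 / 2 + δ / Real.log T) t ^ (2 / (v:ℝ))) +
        η * MM v T) := by
  obtain ⟨h1, h2, h3, h4⟩ := kv hv
  have hΔ1 : ∀ᶠ T : ℝ in atTop, δ / Real.log T ≤ 1 / 8 :=
    ((delta_tendsto δ).eventually (gt_mem_nhds (show (0:ℝ) < 1/8 by norm_num))).mono fun _ h => h.le
  filter_upwards [hΔ1, CT_le (v := v) (by omega) 2000 hη, eventually_gt_atTop 1] with T a1 a2 a3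
  have hT0 : 0 < T := by linarith
  have hL := Real.log_pos a3
  have hΔ0 : 0 ≤ δ / Real.log T := by positivity
  set Δ := δ / Real.log T with hΔ
  have hc1 := zp_cont (σ := 1 / 2 - Δ) (p := 2 / (v:ℝ)) (by linarith) h3
  have hc2 := zp_cont (σ := 1 / 2 + Δ) (p := 2 / (v:ℝ)) (by linarith) h3
  have hX : T ^ (2 / (v:ℝ) * Δ) = Real.exp (2 / (v:ℝ) * δ) := by
    rw [Real.rpow_def_of_pos hT0, hΔ]
    congr 1
    field_simp
  have b1 : ∫ t in (0:ℝ)..T, zn (1 / 2 - Δ) t ^ (2 / (v:ℝ)) ≤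
      ∫ t in (0:ℝ)..T, T ^ (2 / (v:ℝ) * Δ) * (zn (1 / 2 + Δ) t ^ (2 / (v:ℝ)) + 2000) := by
    refine intervalIntegral.integral_mono_on hT0.le (hc1.intervalIntegrable _ _)
      (Continuous.intervalIntegrable (continuous_const.mul (hc2.add continuous_const)) _ _) fun x hx => ?_
    exact fe_p (τ := x) h3 h4 hΔ0 a1 a3.le (by
      rw [abs_le]; constructor <;> linarith [hx.1, hx.2])
  refine b1.trans ?_
  rw [intervalIntegral.integral_const_mul, hX,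
    intervalIntegral.integral_add (hc2.intervalIntegrable _ _) intervalIntegrable_const,
    intervalIntegral.integral_const, smul_eq_mul, sub_zero]
  refine mul_le_mul_of_nonneg_left ?_ (Real.exp_pos _).le
  linarith

end Pool.Agent.Y756
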