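import Pool.Agent.Y756.Clo

set_option autoImplicit false

/-! Numerical constants for the first moment. -/

namespace Pool.Agent.Y756

open MeasureTheory Filter Topology Pool.Agent.H306R2 Pool.Agent.W184

lemma exp_taylor_up (m : ℕ) : ∀ u : ℝ, 0 ≤ u → 0 ≤ (∑ k ∈ Finset.range m, u ^ k / (k.factorial : ℝ)) +
    u ^ m / (m.factorial : ℝ) * Real.exp u - Real.exp u := by
  induction m with
  | zero => intro u _; simp
  | succ m ihm =>
    set g : ℝ → ℝ := fun u => (∑ k ∈ Finset.range (m + 1), u ^ k / (k.factorial : ℝ)) +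
      u ^ (m + 1) / ((m + 1).factorial : ℝ) * Real.exp u - Real.exp u with hg
    have hfac : ((m + 1).factorial : ℝ) = (m + 1) * (m.factorial : ℝ) := by
      rw [Nat.factorial_succ]; push_cast; ring
    have hm0 : (m.factorial : ℝ) ≠ 0 := by positivity
    have hm1 : ((m : ℝ) + 1) ≠ 0 := by positivity
    have hd : ∀ u, HasDerivAt g ((∑ k ∈ Finset.range m, u ^ k / (k.factorial : ℝ)) +
        (u ^ m / (m.factorial : ℝ) * Real.exp u + u ^ (m + 1) / ((m + 1).factorial : ℝ) * Real.exp u) -
        Real.exp u) u := by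
      intro u
      have h2 : HasDerivAt (fun u : ℝ => ∑ k ∈ Finset.range (m + 1), u ^ k / (k.factorial : ℝ))
          (∑ k ∈ Finset.range (m + 1), ((k:ℝ) * u ^ (k - 1)) / (k.factorial : ℝ)) u := by
        refine HasDerivAt.fun_sum fun k _ => ?_
        exact (hasDerivAt_pow k u).div_const _
      have h3 : (∑ k ∈ Finset.range (m + 1), ((k:ℝ) * u ^ (k - 1)) / (k.factorial : ℝ)) =
          ∑ k ∈ Finset.range m, u ^ k / (k.factorial : ℝ) := by
        rw [Finset.sum_range_succ']
        simp only [Nat.cast_zero, zero_mul, zero_div, add_zero]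
        refine Finset.sum_congr rfl fun k _ => ?_
        rw [Nat.add_sub_cancel, Nat.factorial_succ]
        push_cast
        have : (k:ℝ) + 1 ≠ 0 := by positivity
        have : (k.factorial : ℝ) ≠ 0 := by positivity
        field_simp
      rw [h3] at h2
      have h4 : HasDerivAt (fun u : ℝ => u ^ (m + 1) / ((m + 1).factorial : ℝ) * Real.exp u)
          (((m + 1 : ℕ) : ℝ) * u ^ m / ((m + 1).factorial : ℝ) * Real.exp u +
            u ^ (m + 1) / ((m + 1).factorial : ℝ) * Real.exp u) u := by
        have := ((hasDerivAt_pow (m + 1) u).div_const ((m + 1).factorial : ℝ)).fun_mul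
          (Real.hasDerivAt_exp u)
        simpa using this
      have h5 := (h2.fun_add h4).fun_sub (Real.hasDerivAt_exp u)
      refine h5.congr_deriv ?_
      rw [hfac]
      push_cast
      field_simp
    have hmono : MonotoneOn g (Set.Ici 0) := by
      refine monotoneOn_of_deriv_nonneg (convex_Ici 0)
        (fun u _ => (hd u).continuousAt.continuousWithinAt)
        (fun u _ => (hd u).differentiableAt.differentiableWithinAt) ?_
      intro u hu
      rw [interior_Ici] at hu
      have hu' : 0 < u := hu
      rw [(hd u).deriv]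
      have h6 := ihm u hu'.le
      have h7 : 0 ≤ u ^ (m + 1) / ((m + 1).factorial : ℝ) * Real.exp u := by positivity
      linarith
    intro u hu
    have h0 : g 0 = 0 := by
      simp only [hg]
      rw [Finset.sum_range_succ']
      simp
    have := hmono (Set.mem_Ici.mpr le_rfl) (Set.mem_Ici.mpr hu) hu
    rw [h0] at this
    exact this

/-- upper bound for `hI` at negative arguments -/
lemma hI_neg_up {s a : ℝ} (hs : 0 < s) (ha : 0 ≤ a) (n : ℕ) :
    hI s (-a) ≤ (∑ k ∈ Finset.range n, a ^ k / (k.factorial : ℝ) * (s / (s + k))) +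
      a ^ n / (n.factorial : ℝ) * Real.exp a * (s / (s + n)) := by
  have e1 : (∑ k ∈ Finset.range n, a ^ k / (k.factorial : ℝ) * (s / (s + k))) +
      a ^ n / (n.factorial : ℝ) * Real.exp a * (s / (s + n)) =
      ∫ x in (0:ℝ)..1, s * x ^ (s - 1) *
        ((∑ k ∈ Finset.range n, (a * x) ^ k / (k.factorial : ℝ)) +
          a ^ n / (n.factorial : ℝ) * Real.exp a * x ^ n) := by
    have e2 : ∀ x : ℝ, s * x ^ (s - 1) * ((∑ k ∈ Finset.range n, (a * x) ^ k / (k.factorial : ℝ)) +
          a ^ n / (n.factorial : ℝ) * Real.exp a * x ^ n) =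
        (∑ k ∈ Finset.range n, a ^ k / (k.factorial : ℝ) * (s * x ^ (s - 1) * x ^ k)) +
          a ^ n / (n.factorial : ℝ) * Real.exp a * (s * x ^ (s - 1) * x ^ n) := by
      intro x
      rw [mul_add, Finset.mul_sum]
      congr 1
      · refine Finset.sum_congr rfl fun k _ => ?_
        rw [mul_pow]
        ring
      · ring
    simp_rw [e2]
    have ik : ∀ k : ℕ, IntervalIntegrable (fun x : ℝ => s * x ^ (s - 1) * x ^ k) volume 0 1 := fun k =>
      (rpow_ii hs 0 1).mul_continuousOn (by fun_prop)
    have is1 : IntervalIntegrable (fun x : ℝ => ∑ k ∈ Finset.range n, a ^ k / (k.factorial : ℝ) *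
        (s * x ^ (s - 1) * x ^ k)) volume 0 1 := by
      have := IntervalIntegrable.sum (Finset.range n)
        (f := fun (k : ℕ) (x : ℝ) => a ^ k / (k.factorial : ℝ) * (s * x ^ (s - 1) * x ^ k))
        (fun k _ => (ik k).const_mul _) (μ := volume) (a := 0) (b := 1)
      refine this.congr ?_
      intro x _
      simp
    rw [intervalIntegral.integral_add is1 ((ik n).const_mul _),
      intervalIntegral.integral_finsetSum fun k _ => (ik k).const_mul _,
      intervalIntegral.integral_const_mul, int_mono hs]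
    congr 1
    refine Finset.sum_congr rfl fun k _ => ?_
    rw [intervalIntegral.integral_const_mul, int_mono hs]
  rw [e1]
  unfold hI
  refine intervalIntegral.integral_mono_on zero_le_one ?_ ?_ fun x hx => ?_
  · exact (rpow_ii hs 0 1).mul_continuousOn (by fun_prop)
  · exact (rpow_ii hs 0 1).mul_continuousOn (by fun_prop)
  · have hx0 : 0 ≤ x := hx.1
    have h1 := exp_taylor_up n (a * x) (mul_nonneg ha hx0)
    have h2 : 0 ≤ s * x ^ (s - 1) := mul_nonneg hs.le (Real.rpow_nonneg hx0 _)
    refine mul_le_mul_of_nonneg_left ?_ h2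
    rw [show -(-a * x) = a * x by ring]
    refine (sub_nonneg.mp h1).trans (add_le_add_right ?_ _)
    rw [mul_pow]
    have h3 : Real.exp (a * x) ≤ Real.exp a := Real.exp_le_exp.mpr (by nlinarith [hx.2])
    calc a ^ n * x ^ n / (n.factorial : ℝ) * Real.exp (a * x) ≤
        a ^ n * x ^ n / (n.factorial : ℝ) * Real.exp a := by gcongr
      _ = _ := by ring

end Pool.Agent.Y756
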