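import Pool.Agent.Y756.First

set_option autoImplicit false

/-! Explicit constants for the first moment. -/

namespace Pool.Agent.Y756

open MeasureTheory Filter Topology Pool.Agent.H306R2 Pool.Agent.W184

/-- the normalising constant -/
noncomputable def A1 : ℝ := aF (1 / ((2:ℕ):ℝ)) / Real.Gamma ((1 / ((2:ℕ):ℝ)) ^ 2 + 1)

lemma A1_pos : 0 < A1 := by
  have hA := aF_pos (κ := 1 / ((2:ℕ):ℝ)) (by norm_num)
  have hG : 0 < Real.Gamma ((1 / ((2:ℕ):ℝ)) ^ 2 + 1) := Real.Gamma_pos_of_pos (by positivity)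
  exact div_pos hA hG

lemma agI (w : ℝ) : aF (1 / ((2:ℕ):ℝ)) * gI (1 / ((2:ℕ):ℝ)) w = A1 * hI ((1 / ((2:ℕ):ℝ)) ^ 2) (2 * w) := by
  rw [gI_eq (by norm_num)]
  unfold A1
  ring

lemma two_div : 2 / ((2:ℕ):ℝ) = 1 := by norm_num

/-- numerical values -/
lemma num1 : hI ((1 / ((2:ℕ):ℝ)) ^ 2) (22 / 5) ≤ 62523 / 100000 := by
  have h1 := hI_up (s := (1 / ((2:ℕ):ℝ)) ^ 2) (a := 22 / 5) (by norm_num) (by norm_num) 18 (by decide)
  simp only [Finset.sum_range_succ, Finset.sum_range_zero, Nat.factorial] at h1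
  norm_num at h1 ⊢
  linarith

lemma num2 : hI ((1 / ((2:ℕ):ℝ)) ^ 2) (-(22 / 5)) ≤ 64222 / 10000 := by
  have h1 := hI_neg_up (s := (1 / ((2:ℕ):ℝ)) ^ 2) (a := 22 / 5) (by norm_num) (by norm_num) 24
  have h2 : Real.exp (22 / 5) ≤ 149 := by
    have e1 : Real.exp (22 / 5) ≤ Real.exp 5 := Real.exp_le_exp.mpr (by norm_num)
    have e2 : Real.exp 5 = Real.exp 1 ^ 5 := by rw [← Real.exp_nat_mul]; norm_num
    have e3 := Real.exp_one_lt_d9
    have e4 : Real.exp 1 ^ 5 ≤ 2.7182818286 ^ 5 := pow_le_pow_left₀ (Real.exp_pos _).le e3.le 5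
    norm_num at e4
    linarith
  simp only [Finset.sum_range_succ, Finset.sum_range_zero, Nat.factorial] at h1
  norm_num at h1 ⊢
  linarith

lemma num3 : Real.exp (-(11 / 5)) ≤ 110804 / 1000000 := by
  have h2 := exp_up (u := 11 / 5) (by norm_num) 14 (by decide)
  simp only [Finset.sum_range_succ, Finset.sum_range_zero, Nat.factorial] at h2
  norm_num at h2 ⊢
  linarith

theorem Km_first {w : ℝ} (hw : 0 ≤ w) :
    ∀ᶠ T : ℝ in atTop, Km 2 w T ≤ (1504 / 1000 * Real.exp (-w) * A1) * MM 2 T := by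
  refine Km_ev (x := 11 / 5) le_rfl (by norm_num) hw ?_
  rw [agI, agI, two_div, one_mul, one_mul, show (2:ℝ) * (11 / 5) = 22 / 5 by norm_num,
    show (2:ℝ) * -(11 / 5) = -(22 / 5) by norm_num]
  have n1 := num1
  have n2 := num2
  have n3 := num3
  set h1 := hI ((1 / ((2:ℕ):ℝ)) ^ 2) (22 / 5)
  set h2 := hI ((1 / ((2:ℕ):ℝ)) ^ 2) (-(22 / 5))
  set q := Real.exp (-(11 / 5))
  have hq0 : 0 < q := Real.exp_pos _
  have hA := A1_pos
  have hw0 : 0 < Real.exp (-w) := Real.exp_pos _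
  have key : (h1 + q * h2) / (1 - q) < 1504 / 1000 := by
    rw [div_lt_iff₀ (by linarith)]
    nlinarith
  calc Real.exp (-w) * ((A1 * h1 + q * (A1 * h2)) / (1 - q)) =
      (Real.exp (-w) * A1) * ((h1 + q * h2) / (1 - q)) := by ring
    _ < (Real.exp (-w) * A1) * (1504 / 1000) := by gcongr
    _ = _ := by ring

lemma num4 : hI ((1 / ((2:ℕ):ℝ)) ^ 2) (12 / 5) ≤ 720636 / 1000000 := by
  have h1 := hI_up (s := (1 / ((2:ℕ):ℝ)) ^ 2) (a := 12 / 5) (by norm_num) (by norm_num) 14 (by decide)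
  simp only [Finset.sum_range_succ, Finset.sum_range_zero, Nat.factorial] at h1
  norm_num at h1 ⊢
  linarith

lemma num5 : Real.exp (-(3 / 5)) ≤ 548812 / 1000000 ∧ 548811 / 1000000 ≤ Real.exp (-(3 / 5)) := by
  have h2 := exp_up (u := 3 / 5) (by norm_num) 8 (by decide)
  have h3 := exp_lo (u := 3 / 5) (by norm_num) 9 (by decide)
  simp only [Finset.sum_range_succ, Finset.sum_range_zero, Nat.factorial] at h2 h3
  norm_num at h2 h3 ⊢
  constructor <;> linarith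

/-- the first moment, upper bound -/
theorem first_up : ∀ᶠ T : ℝ in atTop, ∫ t in (0:ℝ)..T, zn (1 / 2) t ^ (2 / ((2:ℕ):ℝ)) ≤
    (2139 / 1000 * A1) * MM 2 T := by
  have hA := A1_pos
  have n4 := num4
  obtain ⟨n5, n6⟩ := num5
  set h := hI ((1 / ((2:ℕ):ℝ)) ^ 2) (12 / 5) with hh
  set r := Real.exp (-(3 / 5)) with hr
  have hr0 : 0 < r := Real.exp_pos _
  have hr2 : Real.exp (-(6 / 5)) = r ^ 2 := by
    rw [hr, ← Real.exp_nat_mul]; congr 1; norm_num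
  have hJ : ∀ᶠ T : ℝ in atTop, Jm 2 (6 / 5) T ≤ ((h + 1504 / 1000 * r ^ 2 + 1 / 1000000) * A1) * MM 2 T := by
    refine Jm_up le_rfl (Km_first (w := 6 / 5) (by norm_num)) ?_
    rw [agI, show (2:ℝ) * (6 / 5) = 12 / 5 by norm_num, hr2, ← hh]
    nlinarith
  refine up0 (w := 6 / 5) le_rfl (by norm_num) hJ ?_
  have e1 : Real.exp (2 / ((2:ℕ):ℝ) * (6 / 5) / 2) = r⁻¹ := by
    rw [hr, ← Real.exp_neg]; congr 1; norm_num
  rw [e1, ← mul_assoc]
  refine mul_lt_mul_of_pos_right ?_ hA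
  rw [inv_mul_lt_iff₀ hr0]
  nlinarith

lemma num7 : 50396 / 100000 ≤ hI ((1 / ((2:ℕ):ℝ)) ^ 2) (47 / 5) - 1504 / 1000 * Real.exp (-(47 / 10)) := by
  have h1 := hI_lo (s := (1 / ((2:ℕ):ℝ)) ^ 2) (a := 47 / 5) (by norm_num) (by norm_num) 35 (by decide)
  have h2 := exp_up (u := 47 / 10) (by norm_num) 20 (by decide)
  simp only [Finset.sum_range_succ, Finset.sum_range_zero, Nat.factorial] at h1 h2
  norm_num at h1 h2 ⊢
  linarith

lemma num8 : hI ((1 / ((2:ℕ):ℝ)) ^ 2) (94 / 5) ≤ 43530 / 100000 := by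
  have h1 := hI_up (s := (1 / ((2:ℕ):ℝ)) ^ 2) (a := 94 / 5) (by norm_num) (by norm_num) 60 (by decide)
  simp only [Finset.sum_range_succ, Finset.sum_range_zero, Nat.factorial] at h1
  norm_num at h1 ⊢
  linarith

lemma num9 : Real.exp (-(47 / 10)) ≤ 91 / 10000 := by
  have h2 := exp_up (u := 47 / 10) (by norm_num) 20 (by decide)
  simp only [Finset.sum_range_succ, Finset.sum_range_zero, Nat.factorial] at h2
  norm_num at h2 ⊢
  linarith

/-- the first moment, lower bound -/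
theorem first_lo : ∀ᶠ T : ℝ in atTop, (583 / 1000 * A1) * MM 2 T ≤
    ∫ t in (0:ℝ)..T, zn (1 / 2) t ^ (2 / ((2:ℕ):ℝ)) := by
  have hA := A1_pos
  have n7 := num7
  have n8 := num8
  have n9 := num9
  have hr2 : Real.exp (-(2 * (47 / 10))) = Real.exp (-(47 / 10)) ^ 2 := by
    rw [← Real.exp_nat_mul]; congr 1; norm_num
  set r := Real.exp (-(47 / 10)) with hr
  have hr0 : 0 < r := Real.exp_pos _
  have hJ1 : ∀ᶠ T : ℝ in atTop, ((50395 / 100000) * A1) * MM 2 T ≤ Jm 2 (47 / 10) T := by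
    refine Jm_lo le_rfl (Km_first (w := 47 / 10) (by norm_num)) ?_
    rw [agI, show (2:ℝ) * (47 / 10) = 47 / 5 by norm_num]
    have := mul_le_mul_of_nonneg_left n7 hA.le
    nlinarith
  have hJ2 : ∀ᶠ T : ℝ in atTop, Jm 2 (2 * (47 / 10)) T ≤ ((43543 / 100000) * A1) * MM 2 T := by
    refine Jm_up le_rfl (Km_first (w := 2 * (47 / 10)) (by norm_num)) ?_
    rw [agI, show (2:ℝ) * (2 * (47 / 10)) = 94 / 5 by norm_num, hr2]
    have h1 := mul_le_mul_of_nonneg_left n8 hA.le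
    have h2 : r ^ 2 ≤ (91 / 10000) ^ 2 := pow_le_pow_left₀ hr0.le n9 2
    have h3 := mul_le_mul_of_nonneg_right h2 hA.le
    nlinarith
  refine lo0 (w := 47 / 10) (l := 1157 / 1000) le_rfl (by norm_num) (by norm_num) hJ1 hJ2 ?_
  nlinarith

end Pool.Agent.Y756
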