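import Pool.Agent.W184.Half
import Pool.Agent.W184.Avg

set_option autoImplicit false

/-! Half-plane inequality for `ζ - Q`, with base line to the left of the critical line. -/

namespace Pool.Agent.Y756

open MeasureTheory Set Complex Pool.Agent.H306R2 Pool.Agent.W184

lemma norm_ratio_le {Δ x : ℝ} (h0 : 0 ≤ Δ) (h1 : Δ ≤ 1 / 8) :
    ‖(((1 / 2 - Δ : ℝ) : ℂ) + x * I - 1) / (((1 / 2 - Δ : ℝ) : ℂ) + x * I)‖ ≤ 1 + 8 * Δ := by
  have e1 : ‖((1 / 2 - Δ : ℝ) : ℂ) + x * I - 1‖ ^ 2 = (1 / 2 + Δ) ^ 2 + x ^ 2 := by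
    rw [Complex.sq_norm, Complex.normSq_apply]
    simp
    ring
  have e2 : ‖((1 / 2 - Δ : ℝ) : ℂ) + x * I‖ ^ 2 = (1 / 2 - Δ) ^ 2 + x ^ 2 := by
    rw [Complex.sq_norm, Complex.normSq_apply]
    simp
    ring
  have h2 : 0 < ‖((1 / 2 - Δ : ℝ) : ℂ) + x * I‖ := by
    rw [norm_pos_iff]
    intro h
    have := congrArg Complex.re h
    simp at this
    linarith
  rw [norm_div, div_le_iff₀ h2]
  refine abs_le_of_sq_le_sq' ?_ (by positivity) |>.2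
  rw [mul_pow, e2, e1]
  have h3 : (1 / 2 + Δ) ^ 2 ≤ (1 + 8 * Δ) ^ 2 * (1 / 2 - Δ) ^ 2 := by
    have h4 : 1 / 2 + Δ ≤ (1 + 8 * Δ) * (1 / 2 - Δ) := by nlinarith
    rw [← mul_pow]
    exact pow_le_pow_left₀ (by linarith) h4 2
  have h5 : x ^ 2 ≤ (1 + 8 * Δ) ^ 2 * x ^ 2 := by
    have : 1 ≤ (1 + 8 * Δ) ^ 2 := one_le_pow₀ (by linarith)
    nlinarith [sq_nonneg x]
  nlinarith

lemma Zt_norm_le' {s : ℂ} (hs : 3 / 8 ≤ s.re) : ‖Zt s‖ ≤ 4 * (‖s‖ + 1) ^ 2 := by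
  have hs0 : 0 < s.re := by linarith
  have h1 := Hf_norm_le hs0
  have h2 : 1 / s.re ≤ 3 := by
    rw [div_le_iff₀ hs0]; linarith
  have h3 : ‖s - 1‖ ≤ ‖s‖ + 1 := by
    have := norm_sub_le s 1
    rwa [norm_one] at this
  unfold Zt
  calc ‖s - s * (s - 1) * Hf s‖ ≤ ‖s‖ + ‖s * (s - 1) * Hf s‖ := norm_sub_le _ _
    _ = ‖s‖ + ‖s‖ * ‖s - 1‖ * ‖Hf s‖ := by rw [norm_mul, norm_mul]
    _ ≤ ‖s‖ + ‖s‖ * (‖s‖ + 1) * 3 := by gcongr; exact h1.trans h2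
    _ ≤ 4 * (‖s‖ + 1) ^ 2 := by nlinarith [norm_nonneg s]

theorem half_pt2 {Q : ℂ → ℂ} {N C1 C2 p Δ Δ' t : ℝ} {M : ℕ} (hp : 0 < p) (hN : 1 ≤ N) (hM : 1 ≤ M)
    (hQd : Differentiable ℂ Q) (hQ1 : ∀ z : ℂ, 3 / 8 ≤ z.re → z.re ≤ 2 → ‖Q z‖ ≤ C1)
    (hQ2 : ∀ z : ℂ, 2 ≤ z.re → ‖riemannZeta z - Q z‖ * N ^ z.re ≤ C2)
    (h0 : 0 ≤ Δ) (h0' : 0 ≤ Δ') (hs : 0 < Δ + Δ') (h1 : Δ ≤ 1 / 8) (h1' : Δ' ≤ 1 / 8) :
    ((1 - 8 * Δ) * N ^ (Δ + Δ') / (1 + (Δ + Δ')) ^ (2 * M)) ^ p *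
      ‖riemannZeta (((1 / 2 + Δ : ℝ) : ℂ) + t * I) - Q (((1 / 2 + Δ : ℝ) : ℂ) + t * I)‖ ^ p ≤
    (1 + 8 * Δ') ^ p * ∫ w : ℝ, (KP (Δ + Δ') w * (1 + w ^ 2) ^ (-(M * p))) *
      ‖riemannZeta (((1 / 2 - Δ' : ℝ) : ℂ) + (t + w : ℝ) * I) -
        Q (((1 / 2 - Δ' : ℝ) : ℂ) + (t + w : ℝ) * I)‖ ^ p := by
  have hN0 : 0 < N := by linarith
  have hNc : (N : ℂ) ≠ 0 := by exact_mod_cast hN0.ne'
  set b : ℝ := 1 / 2 - Δ' with hbdef
  have hb38 : 3 / 8 ≤ b := by linarith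
  set c : ℂ := ((b : ℝ) : ℂ) + t * I with hc
  have hcre : c.re = b := by simp [hc]
  have hcim : c.im = t := by simp [hc]
  set F : ℂ → ℂ := fun z => (Zt z - (z - 1) * Q z) / z * (N : ℂ) ^ (z - (b : ℝ)) *
    (1 / (1 + z - c)) ^ (2 * M) with hF
  have hne : ∀ z : ℂ, 0 < z.re → z ≠ 0 := by
    rintro z hz rfl; simp at hz
  have hne2 : ∀ z : ℂ, 0 < z.re → 1 + z - c ≠ 0 := by
    intro z hz h
    have := congrArg Complex.re h
    simp [hcre] at this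
    linarith
  have hFd : ∀ z : ℂ, 0 < z.re → DifferentiableAt ℂ F z := by
    intro z hz
    refine (((((Zt_differentiableAt hz).sub (by fun_prop)).div differentiableAt_id (hne z hz)).mul
      ?_).mul ?_)
    · exact DifferentiableAt.const_cpow (by fun_prop) (Or.inl hNc)
    · refine DifferentiableAt.pow ?_ _
      exact (differentiableAt_const _).div (by fun_prop) (hne2 z hz)
  have hg1 : ∀ z : ℂ, b ≤ z.re → 1 ≤ ‖1 + z - c‖ := by
    intro z hz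
    have := Complex.re_le_norm (1 + z - c)
    simp only [Complex.add_re, Complex.sub_re, Complex.one_re, hcre] at this
    linarith
  have hFn : ∀ z : ℂ, ‖F z‖ = ‖(Zt z - (z - 1) * Q z) / z‖ * N ^ (z.re - b) *
      (1 / ‖1 + z - c‖) ^ (2 * M) := by
    intro z
    rw [hF]
    simp only
    rw [norm_mul, norm_mul, Complex.norm_cpow_eq_rpow_re_of_pos hN0, norm_pow, norm_div (1:ℂ), norm_one]
    congr 2
  have hZt : ∀ z : ℂ, 0 < z.re → z ≠ 1 → Zt z - (z - 1) * Q z = (z - 1) * (riemannZeta z - Q z) := by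
    intro z hz h1
    rw [← zeta_eq_pos hz h1]; ring
  have hC1 : 0 ≤ C1 := (norm_nonneg _).trans (hQ1 1 (by norm_num) (by norm_num))
  have hC2 : 0 ≤ C2 := (mul_nonneg (norm_nonneg _) (by positivity)).trans (hQ2 2 (by norm_num))
  set B : ℝ := 3 * (4 + C1) * (2 + ‖c - 1‖) ^ 2 * N ^ 2 + C2 with hB
  have hb : ∀ z : ℂ, b ≤ z.re → ‖F z‖ ≤ B := by
    intro z hz
    have hz0 : 0 < z.re := by linarith
    have hgz := hg1 z hz
    have hgz0 : 0 < ‖1 + z - c‖ := by linarith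
    have hpw : (1 / ‖1 + z - c‖) ^ (2 * M) ≤ (1 / ‖1 + z - c‖) ^ 2 := by
      refine pow_le_pow_of_le_one (by positivity) ?_ (by omega)
      rw [div_le_one hgz0]; exact hgz
    have hzn : 3 / 8 ≤ ‖z‖ := (hb38.trans hz).trans (Complex.re_le_norm z)
    rw [hFn]
    rcases le_total z.re 2 with h2 | h2
    · have b1 : ‖(Zt z - (z - 1) * Q z) / z‖ ≤ 3 * (4 + C1) * (‖z‖ + 1) ^ 2 := by
        rw [norm_div, div_le_iff₀ (by linarith)]
        have a1 := Zt_norm_le' (hb38.trans hz)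
        have a2 : ‖(z - 1) * Q z‖ ≤ (‖z‖ + 1) * C1 := by
          rw [norm_mul]
          have := norm_sub_le z 1
          rw [norm_one] at this
          exact mul_le_mul this (hQ1 z (hb38.trans hz) h2) (norm_nonneg _) (by positivity)
        have a3 := norm_sub_le (Zt z) ((z - 1) * Q z)
        have a4 : (‖z‖ + 1) * C1 ≤ (‖z‖ + 1) ^ 2 * C1 := by
          have : ‖z‖ + 1 ≤ (‖z‖ + 1) ^ 2 := by nlinarith [norm_nonneg z]
          exact mul_le_mul_of_nonneg_right this hC1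
        have a5 : (4 + C1) * (‖z‖ + 1) ^ 2 ≤ 3 * (4 + C1) * (‖z‖ + 1) ^ 2 * ‖z‖ := by
          have : 0 ≤ (4 + C1) * (‖z‖ + 1) ^ 2 := by positivity
          nlinarith
        nlinarith
      have b2 : N ^ (z.re - b) ≤ N ^ 2 := by
        rw [← Real.rpow_natCast]
        refine Real.rpow_le_rpow_of_exponent_le hN ?_
        push_cast; linarith
      have b3 : ‖z‖ + 1 ≤ ‖1 + z - c‖ * (2 + ‖c - 1‖) := by
        have a1 : ‖z‖ ≤ ‖1 + z - c‖ + ‖c - 1‖ := by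
          have := norm_add_le (1 + z - c) (c - 1)
          rwa [show 1 + z - c + (c - 1) = z by ring] at this
        nlinarith [norm_nonneg (c - 1)]
      have b4 : (‖z‖ + 1) ^ 2 * (1 / ‖1 + z - c‖) ^ 2 ≤ (2 + ‖c - 1‖) ^ 2 := by
        rw [← mul_pow]
        refine pow_le_pow_left₀ (by positivity) ?_ 2
        rw [mul_one_div, div_le_iff₀ hgz0]
        linarith
      calc ‖(Zt z - (z - 1) * Q z) / z‖ * N ^ (z.re - b) * (1 / ‖1 + z - c‖) ^ (2 * M) ≤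
          (3 * (4 + C1) * (‖z‖ + 1) ^ 2) * N ^ 2 * (1 / ‖1 + z - c‖) ^ 2 := by gcongr
        _ = 3 * (4 + C1) * ((‖z‖ + 1) ^ 2 * (1 / ‖1 + z - c‖) ^ 2) * N ^ 2 := by ring
        _ ≤ 3 * (4 + C1) * (2 + ‖c - 1‖) ^ 2 * N ^ 2 := by gcongr
        _ ≤ B := by linarith
    · have hz1 : z ≠ 1 := by
        rintro rfl; norm_num at h2
      rw [hZt z hz0 hz1, nrm_swap]
      have b1 : ‖(z - 1) / z‖ ≤ 1 := by
        rw [norm_div, div_le_one (by linarith)]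
        have e1 : ‖z - 1‖ ^ 2 ≤ ‖z‖ ^ 2 := by
          rw [Complex.sq_norm, Complex.sq_norm, Complex.normSq_apply, Complex.normSq_apply]
          simp
          nlinarith
        exact (abs_le_of_sq_le_sq' e1 (norm_nonneg _)).2
      have b2 : N ^ (z.re - b) ≤ N ^ z.re := Real.rpow_le_rpow_of_exponent_le hN (by linarith)
      have b3 : (1 / ‖1 + z - c‖) ^ (2 * M) ≤ 1 := by
        refine pow_le_one₀ (by positivity) ?_
        rw [div_le_one hgz0]; exact hgz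
      calc ‖riemannZeta z - Q z‖ * ‖(z - 1) / z‖ * N ^ (z.re - b) * (1 / ‖1 + z - c‖) ^ (2 * M) ≤
          ‖riemannZeta z - Q z‖ * 1 * N ^ z.re * 1 := by gcongr
        _ = ‖riemannZeta z - Q z‖ * N ^ z.re := by ring
        _ ≤ C2 := hQ2 z h2
        _ ≤ B := by
          have : 0 ≤ 3 * (4 + C1) * (2 + ‖c - 1‖) ^ 2 * N ^ 2 := by positivity
          linarith
  have hmain := hp_ineq (F := F) (b := b) (t := t) (C := B) hs hp ?_ ?_ ?_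
  · have e1 : ((b : ℂ) + ((Δ + Δ' : ℝ) : ℂ) + t * I) = (((1 / 2 + Δ : ℝ) : ℂ) + t * I) := by
      rw [hbdef]; push_cast; ring
    have hz1 : (((1 / 2 + Δ : ℝ) : ℂ) + t * I) ≠ 1 := by
      intro h
      have := congrArg Complex.re h
      simp at this
      linarith
    have hre : (((1 / 2 + Δ : ℝ) : ℂ) + t * I).re = 1 / 2 + Δ := by simp
    have hlow : ((1 - 8 * Δ) * N ^ (Δ + Δ') / (1 + (Δ + Δ')) ^ (2 * M)) *
        ‖riemannZeta (((1 / 2 + Δ : ℝ) : ℂ) + t * I) - Q (((1 / 2 + Δ : ℝ) : ℂ) + t * I)‖ ≤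
        ‖F ((b : ℂ) + ((Δ + Δ' : ℝ) : ℂ) + t * I)‖ := by
      rw [e1, hFn, hZt _ (by rw [hre]; linarith) hz1, nrm_swap, hre]
      have h3 := norm_ratio_ge (t := t) h0 (by linarith : 8 * Δ ≤ 1)
      have e3 : (((1 / 2 : ℝ) : ℂ) + Δ + t * I) = (((1 / 2 + Δ : ℝ) : ℂ) + t * I) := by push_cast; ring
      rw [e3] at h3
      have e2 : ‖1 + (((1 / 2 + Δ : ℝ) : ℂ) + t * I) - c‖ = 1 + (Δ + Δ') := by
        rw [hc, show 1 + (((1 / 2 + Δ : ℝ) : ℂ) + t * I) - (((b : ℝ) : ℂ) + t * I) =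
          ((1 + (Δ + Δ') : ℝ) : ℂ) by rw [hbdef]; push_cast; ring, Complex.norm_real,
          Real.norm_of_nonneg (by linarith)]
      rw [e2, show (1 / 2 + Δ - b) = Δ + Δ' by rw [hbdef]; ring, one_div (1 + (Δ + Δ')), inv_pow]
      have hX := norm_nonneg (riemannZeta (((1 / 2 + Δ : ℝ) : ℂ) + t * I) -
        Q (((1 / 2 + Δ : ℝ) : ℂ) + t * I))
      have hY : 0 ≤ N ^ (Δ + Δ') * ((1 + (Δ + Δ')) ^ (2 * M))⁻¹ := by positivity
      calc ((1 - 8 * Δ) * N ^ (Δ + Δ') / (1 + (Δ + Δ')) ^ (2 * M)) *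
            ‖riemannZeta (((1 / 2 + Δ : ℝ) : ℂ) + t * I) -
            Q (((1 / 2 + Δ : ℝ) : ℂ) + t * I)‖ = (1 - 8 * Δ) * (‖riemannZeta (((1 / 2 + Δ : ℝ) : ℂ) + t * I) -
            Q (((1 / 2 + Δ : ℝ) : ℂ) + t * I)‖ * (N ^ (Δ + Δ') * ((1 + (Δ + Δ')) ^ (2 * M))⁻¹)) := by
              rw [div_eq_mul_inv]; ring
        _ ≤ ‖(((1 / 2 + Δ : ℝ) : ℂ) + t * I - 1) / (((1 / 2 + Δ : ℝ) : ℂ) + t * I)‖ *
            (‖riemannZeta (((1 / 2 + Δ : ℝ) : ℂ) + t * I) -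
            Q (((1 / 2 + Δ : ℝ) : ℂ) + t * I)‖ * (N ^ (Δ + Δ') * ((1 + (Δ + Δ')) ^ (2 * M))⁻¹)) :=
              mul_le_mul_of_nonneg_right h3 (mul_nonneg hX hY)
        _ = _ := by ring
    have hlow2 : 0 ≤ (1 - 8 * Δ) * N ^ (Δ + Δ') / (1 + (Δ + Δ')) ^ (2 * M) := by
      have : 0 ≤ 1 - 8 * Δ := by linarith
      positivity
    rw [← Real.mul_rpow hlow2 (norm_nonneg _)]
    refine (Real.rpow_le_rpow (mul_nonneg hlow2 (norm_nonneg _)) hlow hp.le).trans ?_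
    rw [← integral_const_mul]
    refine hmain.trans ?_
    obtain ⟨kp1, -⟩ := KP_int hs
    have hQc := hQd.continuous
    have hline : Continuous fun w : ℝ => ((b : ℝ) : ℂ) + ((t + w : ℝ) : ℂ) * I := by fun_prop
    have r1 : ∀ w : ℝ, (((b : ℝ) : ℂ) + ((t + w : ℝ) : ℂ) * I).re = b := by intro w; simp
    have hcz : Continuous fun w : ℝ => riemannZeta (((b : ℝ) : ℂ) + ((t + w : ℝ) : ℂ) * I) := by
      rw [continuous_iff_continuousAt]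
      intro w
      have h2 : ContinuousAt riemannZeta (((b : ℝ) : ℂ) + ((t + w : ℝ) : ℂ) * I) :=
        (zeta_diffAt (by rw [r1]; linarith)).continuousAt
      exact ContinuousAt.comp (f := fun w : ℝ => ((b : ℝ) : ℂ) + ((t + w : ℝ) : ℂ) * I) h2
        hline.continuousAt
    have hpt : ∀ w : ℝ, ‖F (((b : ℝ) : ℂ) + ((t + w : ℝ) : ℂ) * I)‖ =
        ‖riemannZeta (((b : ℝ) : ℂ) + ((t + w : ℝ) : ℂ) * I) - Q (((b : ℝ) : ℂ) + ((t + w : ℝ) : ℂ) * I)‖ *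
        ‖((((b : ℝ) : ℂ) + ((t + w : ℝ) : ℂ) * I) - 1) / (((b : ℝ) : ℂ) + ((t + w : ℝ) : ℂ) * I)‖ *
        ((1 + w ^ 2)⁻¹) ^ M := by
      intro w
      have hz2 : (((b : ℝ) : ℂ) + ((t + w : ℝ) : ℂ) * I) ≠ 1 := by
        intro h
        have := congrArg Complex.re h
        rw [r1] at this
        norm_num at this
        linarith
      rw [hFn, hZt _ (by rw [r1]; linarith) hz2, nrm_swap, r1, sub_self, Real.rpow_zero, mul_one]
      have e3 : ‖1 + (((b : ℝ) : ℂ) + ((t + w : ℝ) : ℂ) * I) - c‖ ^ 2 = 1 + w ^ 2 := by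
        rw [hc, show 1 + (((b : ℝ) : ℂ) + ((t + w : ℝ) : ℂ) * I) - (((b : ℝ) : ℂ) + t * I) =
          1 + (w : ℂ) * I by push_cast; ring, Complex.sq_norm, Complex.normSq_apply]
        simp
        ring
      have e5 : (1 / ‖1 + (((b : ℝ) : ℂ) + ((t + w : ℝ) : ℂ) * I) - c‖) ^ 2 = (1 + w ^ 2)⁻¹ := by
        rw [div_pow, one_pow, e3, one_div]
      rw [pow_mul, e5]
    have e4 : ∀ w : ℝ, (((1 + w ^ 2)⁻¹) ^ M : ℝ) ^ p = (1 + w ^ 2) ^ (-(M * p)) := by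
      intro w
      have h4 : 0 < 1 + w ^ 2 := by positivity
      rw [← Real.rpow_natCast, Real.inv_rpow h4.le, ← Real.rpow_neg h4.le, ← Real.rpow_mul h4.le]
      congr 1; ring
    have hratio1 : ∀ w : ℝ, 1 ≤ ‖((((b : ℝ) : ℂ) + ((t + w : ℝ) : ℂ) * I) - 1) /
        (((b : ℝ) : ℂ) + ((t + w : ℝ) : ℂ) * I)‖ := by
      intro w
      have hz0 : 0 < ‖((b : ℝ) : ℂ) + ((t + w : ℝ) : ℂ) * I‖ := by
        rw [norm_pos_iff]
        exact hne _ (by rw [r1]; linarith)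
      rw [norm_div, le_div_iff₀ hz0, one_mul]
      have e1 : ‖((b : ℝ) : ℂ) + ((t + w : ℝ) : ℂ) * I‖ ^ 2 ≤
          ‖(((b : ℝ) : ℂ) + ((t + w : ℝ) : ℂ) * I) - 1‖ ^ 2 := by
        rw [Complex.sq_norm, Complex.sq_norm, Complex.normSq_apply, Complex.normSq_apply]
        simp
        nlinarith
      exact (abs_le_of_sq_le_sq' e1 (norm_nonneg _)).2
    have hnn : ∀ w : ℝ, 0 ≤ (KP (Δ + Δ') w * (1 + w ^ 2) ^ (-(M * p))) := fun w =>
      mul_nonneg (KP_nonneg hs w) (by positivity)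
    have hqn : ∀ w : ℝ, 0 ≤ ‖riemannZeta (((b : ℝ) : ℂ) + ((t + w : ℝ) : ℂ) * I) -
        Q (((b : ℝ) : ℂ) + ((t + w : ℝ) : ℂ) * I)‖ := fun w => norm_nonneg _
    have hmeas : Continuous fun w : ℝ => (1 + 8 * Δ') ^ p * ((KP (Δ + Δ') w * (1 + w ^ 2) ^ (-(M * p))) *
      ‖riemannZeta (((b : ℝ) : ℂ) + ((t + w : ℝ) : ℂ) * I) -
        Q (((b : ℝ) : ℂ) + ((t + w : ℝ) : ℂ) * I)‖ ^ p) := by
      refine continuous_const.mul (((KP_cont hs).mul ?_).mul ?_)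
      · exact Continuous.rpow_const (by fun_prop) fun w => Or.inl (by positivity)
      · exact Continuous.rpow_const (hcz.sub (hQc.comp hline)).norm fun w => Or.inr hp.le
    have hbB : ∀ w : ℝ, (1 + w ^ 2) ^ (-(M * p)) * ‖riemannZeta (((b : ℝ) : ℂ) + ((t + w : ℝ) : ℂ) * I) -
        Q (((b : ℝ) : ℂ) + ((t + w : ℝ) : ℂ) * I)‖ ^ p ≤ B ^ p := by
      intro w
      rw [← e4 w, ← Real.mul_rpow (by positivity) (hqn w)]
      refine Real.rpow_le_rpow (mul_nonneg (by positivity) (hqn w)) ?_ hp.le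
      refine le_trans ?_ (hb (((b : ℝ) : ℂ) + ((t + w : ℝ) : ℂ) * I) (by rw [r1]))
      rw [hpt w]
      have a1 := hratio1 w
      have a2 : 0 ≤ ((1 + w ^ 2)⁻¹ : ℝ) ^ M := by positivity
      calc ((1 + w ^ 2)⁻¹ : ℝ) ^ M * ‖riemannZeta (((b : ℝ) : ℂ) + ((t + w : ℝ) : ℂ) * I) -
            Q (((b : ℝ) : ℂ) + ((t + w : ℝ) : ℂ) * I)‖ =
          ‖riemannZeta (((b : ℝ) : ℂ) + ((t + w : ℝ) : ℂ) * I) -
            Q (((b : ℝ) : ℂ) + ((t + w : ℝ) : ℂ) * I)‖ * 1 * ((1 + w ^ 2)⁻¹ : ℝ) ^ M := by ring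
        _ ≤ _ := by gcongr
    have hB0 : 0 ≤ B := (norm_nonneg _).trans (hb c (by rw [hcre]))
    refine integral_mono_of_nonneg (Filter.Eventually.of_forall fun w =>
      mul_nonneg (KP_nonneg hs w) (by positivity)) ?_ (Filter.Eventually.of_forall fun w => ?_)
    · refine Integrable.mono' (kp1.mul_const ((1 + 8 * Δ') ^ p * B ^ p)) hmeas.aestronglyMeasurable
        (Filter.Eventually.of_forall fun w => ?_)
      have a1 : 0 ≤ (1 + 8 * Δ') ^ p := by positivity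
      rw [Real.norm_of_nonneg (mul_nonneg a1 (mul_nonneg (hnn w) (by positivity)))]
      have a2 := mul_le_mul_of_nonneg_left (hbB w) (mul_nonneg a1 (KP_nonneg hs w))
      linarith
    · beta_reduce
      rw [hpt w, Real.mul_rpow (mul_nonneg (hqn w) (norm_nonneg _)) (by positivity),
        Real.mul_rpow (hqn w) (norm_nonneg _), e4 w]
      have a1 : ‖((((b : ℝ) : ℂ) + ((t + w : ℝ) : ℂ) * I) - 1) /
        (((b : ℝ) : ℂ) + ((t + w : ℝ) : ℂ) * I)‖ ^ p ≤ (1 + 8 * Δ') ^ p :=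
        Real.rpow_le_rpow (norm_nonneg _) (norm_ratio_le h0' h1') hp.le
      have a2 : 0 ≤ KP (Δ + Δ') w := KP_nonneg hs w
      have a3 : 0 ≤ ‖riemannZeta (((b : ℝ) : ℂ) + ((t + w : ℝ) : ℂ) * I) -
        Q (((b : ℝ) : ℂ) + ((t + w : ℝ) : ℂ) * I)‖ ^ p := by positivity
      have a4 : 0 ≤ (1 + w ^ 2) ^ (-(M * p)) := by positivity
      calc KP (Δ + Δ') w * (‖riemannZeta (((b : ℝ) : ℂ) + ((t + w : ℝ) : ℂ) * I) -
            Q (((b : ℝ) : ℂ) + ((t + w : ℝ) : ℂ) * I)‖ ^ p *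
            ‖((((b : ℝ) : ℂ) + ((t + w : ℝ) : ℂ) * I) - 1) /
            (((b : ℝ) : ℂ) + ((t + w : ℝ) : ℂ) * I)‖ ^ p * (1 + w ^ 2) ^ (-(M * p))) ≤
          KP (Δ + Δ') w * (‖riemannZeta (((b : ℝ) : ℂ) + ((t + w : ℝ) : ℂ) * I) -
            Q (((b : ℝ) : ℂ) + ((t + w : ℝ) : ℂ) * I)‖ ^ p * (1 + 8 * Δ') ^ p *
            (1 + w ^ 2) ^ (-(M * p))) := by gcongr
        _ = _ := by ring
  · intro z hz
    have hz' : b < z.re := hz
    exact (hFd z (by linarith)).differentiableWithinAt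
  · intro z hz
    have hz' : b ≤ z.re := hz
    exact (hFd z (by linarith)).continuousAt.continuousWithinAt
  · intro z hz
    exact hb z hz.le

end Pool.Agent.Y756
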