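import Pool.Agent.Y756.HalfL
import Pool.Agent.W184.Close

set_option autoImplicit false

/-! The half-plane inequality with base line to the left of the critical line, integrated. -/

namespace Pool.Agent.Y756

open MeasureTheory Filter Topology Pool.Agent.H306R2 Pool.Agent.W184

theorem half_fix2 {Q : ℂ → ℂ} {N C1 C2 p Δ Δ' T B E : ℝ} {M : ℕ} (hp : 0 < p) (hN : 1 ≤ N) (hM : 1 ≤ M)
    (hMp : (M : ℝ) * p = 16)
    (hQd : Differentiable ℂ Q) (hQ1 : ∀ z : ℂ, 3 / 8 ≤ z.re → z.re ≤ 2 → ‖Q z‖ ≤ C1)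
    (hQ2 : ∀ z : ℂ, 2 ≤ z.re → ‖riemannZeta z - Q z‖ * N ^ z.re ≤ C2)
    (h0 : 0 ≤ Δ) (h0' : 0 ≤ Δ') (hs : 0 < Δ + Δ') (h1 : Δ ≤ 1 / 8) (h1' : Δ' ≤ 1 / 8)
    (hT : 1 ≤ T) (hB : 0 ≤ B)
    (hGB : ∀ x, qn Q p (1 / 2 - Δ') x ≤ B * (1 + |x|))
    (hE : (∫ t in (-(T ^ ((1:ℝ)/4)))..0, qn Q p (1 / 2 - Δ') t) +
      ∫ t in T..(T + T ^ ((1:ℝ)/4)), qn Q p (1 / 2 - Δ') t ≤ E) :
    ((1 - 8 * Δ) * N ^ (Δ + Δ') / (1 + (Δ + Δ')) ^ (2 * M)) ^ p *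
        ∫ t in (0:ℝ)..T, qn Q p (1 / 2 + Δ) t ≤
      (1 + 8 * Δ') ^ p * ((∫ t in (0:ℝ)..T, qn Q p (1 / 2 - Δ') t) + E +
      T * (B * (1 + T)) * (2 * Real.pi * (1 / (Δ + Δ')) * (T ^ ((1:ℝ)/4)) ^ (-(29:ℝ)))) := by
  have hT0 : 0 < T := by linarith
  set U : ℝ := T ^ ((1:ℝ)/4) with hU
  have hU1 : 1 ≤ U := Real.one_le_rpow hT (by norm_num)
  set K : ℝ → ℝ := fun w => KP (Δ + Δ') w * (1 + w ^ 2) ^ (-((M:ℝ) * p)) with hK
  have hKe : K = fun w => KP (Δ + Δ') w * (1 + w ^ 2) ^ (-(16:ℝ)) := by rw [hK, hMp]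
  have hKc : Continuous K := by
    rw [hKe]
    refine (KP_cont hs).mul ?_
    refine Continuous.rpow_const (by fun_prop) fun w => Or.inl ?_
    positivity
  have hpw : ∀ w : ℝ, (1 + w ^ 2) ^ (-(16:ℝ)) ≤ 1 := fun w =>
    Real.rpow_le_one_of_one_le_of_nonpos (by nlinarith [sq_nonneg w]) (by norm_num)
  have hK0 : ∀ w, 0 ≤ K w := by
    intro w
    rw [hKe]
    exact mul_nonneg (KP_nonneg hs w) (by positivity)
  have hKb : ∀ w, K w ≤ (1 / (Δ + Δ')) * (1 + w ^ 2) ^ (-(16:ℝ)) := by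
    intro w
    rw [hKe]
    exact mul_le_mul_of_nonneg_right (KP_le hs w) (by positivity)
  obtain ⟨i1, i2, i3⟩ := tail_int (A := 1 / (Δ + Δ')) (U := U) (by positivity) hU1 hKc hK0 hKb
  have hKm : ∫ w, K w ≤ 1 := by
    obtain ⟨j1, j2⟩ := KP_int hs
    rw [← j2]
    refine integral_mono i1 j1 fun w => ?_
    rw [hKe]
    exact mul_le_of_le_one_right (KP_nonneg hs w) (hpw w)
  have hc0 := qn_cont hQd (p := p) (σ := 1 / 2 - Δ') hp (by linarith)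
  have hc1 := qn_cont hQd (p := p) (σ := 1 / 2 + Δ) hp (by linarith)
  set fac : ℝ := ((1 - 8 * Δ) * N ^ (Δ + Δ') / (1 + (Δ + Δ')) ^ (2 * M)) ^ p with hfac
  have he0 : 0 < (1 + 8 * Δ') ^ p := by positivity
  set f2 : ℝ := ((1 + 8 * Δ') ^ p)⁻¹ * fac with hf2
  have hpt : ∀ t ∈ Set.Icc 0 T, f2 * qn Q p (1 / 2 + Δ) t ≤
      ∫ w, K w * qn Q p (1 / 2 - Δ') (t + w) := by
    intro t _
    have h3 := half_pt2 (t := t) hp hN hM hQd hQ1 hQ2 h0 h0' hs h1 h1'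
    rw [hf2, mul_assoc, inv_mul_le_iff₀ he0]
    exact h3
  have hmain := avg_le (K := K) (G := qn Q p (1 / 2 - Δ')) (H := fun t => f2 * qn Q p (1 / 2 + Δ) t)
    (T := T) (U := U) (B := B) hT0.le (by linarith) hB hKc hK0 i2 i1 hc0 (qn_nonneg _ _ _) hGB
    (continuous_const.mul hc1) hpt
  rw [intervalIntegral.integral_const_mul] at hmain
  rw [hf2, mul_assoc, inv_mul_le_iff₀ he0] at hmain
  refine hmain.trans (mul_le_mul_of_nonneg_left ?_ he0.le)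
  refine (add_le_add ?_ (mul_le_mul_of_nonneg_left i3 (by positivity)))
  have hE0 : 0 ≤ ∫ t in (-U)..(T + U), qn Q p (1 / 2 - Δ') t :=
    intervalIntegral.integral_nonneg (by linarith) fun x _ => qn_nonneg _ _ _ _
  calc (∫ w, K w) * ∫ t in (-U)..(T + U), qn Q p (1 / 2 - Δ') t ≤
      1 * ∫ t in (-U)..(T + U), qn Q p (1 / 2 - Δ') t := mul_le_mul_of_nonneg_right hKm hE0
    _ = (∫ t in (0:ℝ)..T, qn Q p (1 / 2 - Δ') t) + ((∫ t in (-U)..0, qn Q p (1 / 2 - Δ') t) +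
        ∫ t in T..(T + U), qn Q p (1 / 2 - Δ') t) := by rw [one_mul, split_edges hc0]
    _ ≤ _ := by linarith

/-- mean value theorem slightly to the left of the critical line -/
theorem mv_DS2 {g : ℕ → ℝ} (hg0 : ∀ n, 0 ≤ g n) (hg1 : ∀ n, g n ≤ 1) {σ Δ : ℝ} (hσ : 1 / 2 - Δ ≤ σ)
    (hΔ : 0 ≤ Δ) (N : ℕ) (A B : ℝ) :
    |(∫ t in A..B, ‖DS g N ((σ : ℂ) + t * Complex.I)‖ ^ 2) -
      (B - A) * ∑ n ∈ Finset.Icc 1 N, g n ^ 2 * (n : ℝ) ^ (-(2 * σ))| ≤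
      (N:ℝ) ^ (2 * Δ) * (6 * N * (1 + Real.log N)) := by
  rcases Nat.eq_zero_or_pos N with hN | hN
  · subst hN
    simp [DS]
  have hN0 : (0:ℝ) < N := by exact_mod_cast hN
  set c : ℝ := (N:ℝ) ^ (-Δ) with hc
  have hc0 : 0 < c := Real.rpow_pos_of_pos hN0 _
  have h := mv_cos (a := fun n => if n ≤ N then c * (g n * (n : ℝ) ^ (-σ)) else 0)
    (fun n => by
      split_ifs
      · exact mul_nonneg hc0.le (mul_nonneg (hg0 n) (by positivity))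
      · exact le_rfl)
    (fun n hn => ?_) N A B
  · have e1 : ∀ t : ℝ, (∑ m ∈ Finset.Icc 1 N, ∑ n ∈ Finset.Icc 1 N,
        (if m ≤ N then c * (g m * (m : ℝ) ^ (-σ)) else 0) *
        (if n ≤ N then c * (g n * (n : ℝ) ^ (-σ)) else 0) *
        Real.cos (t * (Real.log m - Real.log n))) = c ^ 2 * ‖DS g N ((σ : ℂ) + t * Complex.I)‖ ^ 2 := by
      intro t
      rw [DS_norm_sq, Finset.mul_sum]
      refine Finset.sum_congr rfl fun m hm => ?_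
      rw [Finset.mul_sum]
      refine Finset.sum_congr rfl fun n hn => ?_
      rw [if_pos (Finset.mem_Icc.mp hm).2, if_pos (Finset.mem_Icc.mp hn).2]
      ring
    have e2 : (∑ n ∈ Finset.Icc 1 N, (if n ≤ N then c * (g n * (n : ℝ) ^ (-σ)) else 0) ^ 2) =
        c ^ 2 * ∑ n ∈ Finset.Icc 1 N, g n ^ 2 * (n : ℝ) ^ (-(2 * σ)) := by
      rw [Finset.mul_sum]
      refine Finset.sum_congr rfl fun n hn => ?_
      rw [if_pos (Finset.mem_Icc.mp hn).2, mul_pow, mul_pow, ← Real.rpow_natCast ((n:ℝ) ^ (-σ)),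
        ← Real.rpow_mul (Nat.cast_nonneg n)]
      congr 3
      push_cast; ring
    simp_rw [e1] at h
    rw [e2, intervalIntegral.integral_const_mul] at h
    have e3 : c ^ 2 * (∫ t in A..B, ‖DS g N ((σ : ℂ) + t * Complex.I)‖ ^ 2) -
        (B - A) * (c ^ 2 * ∑ n ∈ Finset.Icc 1 N, g n ^ 2 * (n : ℝ) ^ (-(2 * σ))) =
        c ^ 2 * ((∫ t in A..B, ‖DS g N ((σ : ℂ) + t * Complex.I)‖ ^ 2) -
        (B - A) * ∑ n ∈ Finset.Icc 1 N, g n ^ 2 * (n : ℝ) ^ (-(2 * σ))) := by ring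
    rw [e3, abs_mul, abs_of_nonneg (by positivity : 0 ≤ c ^ 2)] at h
    have e4 : (N:ℝ) ^ (2 * Δ) * c ^ 2 = 1 := by
      rw [hc, ← Real.rpow_natCast ((N:ℝ) ^ (-Δ)), ← Real.rpow_mul hN0.le, ← Real.rpow_add hN0]
      rw [show 2 * Δ + -Δ * ((2:ℕ):ℝ) = 0 by push_cast; ring, Real.rpow_zero]
    have h5 := mul_le_mul_of_nonneg_left h (Real.rpow_nonneg hN0.le (2 * Δ))
    rw [← mul_assoc, e4, one_mul] at h5
    exact h5
  · split_ifs with hnN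
    · have hn0 : (0:ℝ) < n := by exact_mod_cast hn
      have hn1 : (1:ℝ) ≤ n := by exact_mod_cast hn
      have hnN' : (n:ℝ) ≤ N := by exact_mod_cast hnN
      have h1 : c * (g n * (n : ℝ) ^ (-σ)) ≤ (n:ℝ) ^ (-(1/2:ℝ)) := by
        have h2 : c ≤ (n:ℝ) ^ (-Δ) := by
          rw [hc, Real.rpow_neg hN0.le, Real.rpow_neg hn0.le]
          exact inv_anti₀ (Real.rpow_pos_of_pos hn0 _) (Real.rpow_le_rpow hn0.le hnN' hΔ)
        have h3 : (n:ℝ) ^ (-σ) ≤ (n:ℝ) ^ (-(1/2 - Δ)) :=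
          Real.rpow_le_rpow_of_exponent_le hn1 (by linarith)
        calc c * (g n * (n : ℝ) ^ (-σ)) ≤ (n:ℝ) ^ (-Δ) * (1 * (n:ℝ) ^ (-(1/2 - Δ))) := by
              refine mul_le_mul h2 (mul_le_mul (hg1 n) h3 (by positivity) zero_le_one) ?_ (by positivity)
              exact mul_nonneg (hg0 n) (by positivity)
          _ = (n:ℝ) ^ (-(1/2:ℝ)) := by
              rw [one_mul, ← Real.rpow_add hn0]
              congr 1; ring
      have h0 : 0 ≤ c * (g n * (n : ℝ) ^ (-σ)) := mul_nonneg hc0.le (mul_nonneg (hg0 n) (by positivity))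
      calc (c * (g n * (n : ℝ) ^ (-σ))) ^ 2 ≤ ((n:ℝ) ^ (-(1/2:ℝ))) ^ 2 := pow_le_pow_left₀ h0 h1 2
        _ = 1 / n := by
          rw [← Real.rpow_natCast, ← Real.rpow_mul hn0.le]
          norm_num
          rw [Real.rpow_neg_one]
    · simp
      

end Pool.Agent.Y756
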