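import Pool.Agent.Y756.Ev

set_option autoImplicit false

/-! Midpoint convexity of `σ ↦ ∫ |ζ(σ+it)|^p` to the right of the critical line. -/

namespace Pool.Agent.Y756

open MeasureTheory Filter Topology Pool.Agent.H306R2 Pool.Agent.W184

/-- the pointwise inequality -/
theorem mid_pt {Δ p m t : ℝ} (hp : 0 < p) (h0 : 0 < Δ) (h1 : Δ ≤ 1 / 8) :
    zn (1 / 2 + Δ) t ^ p ≤ (∫ w : ℝ, (KS Δ w * Real.exp (p * (Δ ^ 2 - w ^ 2))) *
        (Real.exp (p * m) * zn (1 / 2 + 2 * Δ) (t + w) ^ p)) +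
      ∫ w : ℝ, (KS Δ w * Real.exp (p * (Δ ^ 2 - w ^ 2))) *
        (Real.exp (-(p * m)) * zn (1 / 2) (t + w) ^ p) := by
  set a : ℝ := 1 / 2 + Δ with ha
  set κ : ℝ := m / Δ with hκ
  have hκΔ : κ * Δ = m := by rw [hκ]; field_simp
  set c : ℂ := ((a : ℝ) : ℂ) + t * Complex.I with hc
  have hcre : c.re = a := by simp [hc]
  have hcim : c.im = t := by simp [hc]
  set F : ℂ → ℂ := fun z => riemannZeta z * Complex.exp (κ * (z - (a : ℝ))) *
    Complex.exp ((z - c) ^ 2) with hF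
  have hFd : ∀ z : ℂ, z.re < 1 → DifferentiableAt ℂ F z := by
    intro z hz
    exact ((zeta_diffAt hz).mul (by fun_prop)).mul (by fun_prop)
  have hFn : ∀ z : ℂ, ‖F z‖ = ‖riemannZeta z‖ * Real.exp (κ * (z.re - a)) *
      Real.exp ((z.re - a) ^ 2 - (z.im - t) ^ 2) := by
    intro z
    rw [hF]
    simp only
    rw [norm_mul, norm_mul, Complex.norm_exp, Complex.norm_exp]
    congr 2
    · congr 2
      rw [Complex.re_ofReal_mul, Complex.sub_re, Complex.ofReal_re]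
    · rw [pow_two, Complex.mul_re, Complex.sub_re, Complex.sub_im, hcre, hcim]
      ring
  have hb : ∀ z : ℂ, |z.re - c.re| ≤ Δ → ‖F z‖ ≤ 12 * (2 + |t|) * Real.exp |m| * Real.exp 1 := by
    intro z hz
    rw [hcre] at hz
    have hz1 := abs_le.mp hz
    rw [hFn]
    have e1 : ‖riemannZeta z‖ ≤ 12 * (1 + (|t| + |z.im - t|)) := by
      have h2 := zn_le' (σ := z.re) (t := z.im) (by linarith) (by linarith)
      have h3 : zn z.re z.im = ‖riemannZeta z‖ := by unfold zn; rw [Complex.re_add_im]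
      rw [h3] at h2
      have h4 : |z.im| ≤ |t| + |z.im - t| := by
        have := abs_add_le t (z.im - t)
        rwa [add_sub_cancel] at this
      linarith
    have e2 : Real.exp (κ * (z.re - a)) ≤ Real.exp |m| := by
      refine Real.exp_le_exp.mpr ?_
      calc κ * (z.re - a) ≤ |κ * (z.re - a)| := le_abs_self _
        _ = |κ| * |z.re - a| := abs_mul _ _
        _ ≤ |κ| * Δ := mul_le_mul_of_nonneg_left hz (abs_nonneg _)
        _ = |m| := by rw [← hκΔ, abs_mul, abs_of_pos h0]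
    have e3 : Real.exp ((z.re - a) ^ 2 - (z.im - t) ^ 2) ≤
        Real.exp 1 * Real.exp (-(z.im - t) ^ 2) := by
      rw [← Real.exp_add]
      refine Real.exp_le_exp.mpr ?_
      nlinarith
    have e4 := gauss_lin (a := |t|) (x := z.im - t) (abs_nonneg t)
    calc ‖riemannZeta z‖ * Real.exp (κ * (z.re - a)) * Real.exp ((z.re - a) ^ 2 - (z.im - t) ^ 2) ≤
        (12 * (1 + (|t| + |z.im - t|))) * Real.exp |m| * (Real.exp 1 * Real.exp (-(z.im - t) ^ 2)) := by
          gcongr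
      _ = 12 * ((1 + (|t| + |z.im - t|)) * Real.exp (-(z.im - t) ^ 2)) * Real.exp |m| * Real.exp 1 := by ring
      _ ≤ 12 * (2 + |t|) * Real.exp |m| * Real.exp 1 := by gcongr
  have hmain := strip_ineq (F := F) (c := c) (p := p) h0 hp ?_ ?_ hb
  · have e0 : ‖F c‖ = zn a t := by
      rw [hFn, hcre, hcim]
      simp [zn, hc]
    rw [e0] at hmain
    refine hmain.trans (le_of_eq ?_)
    congr 1
    · refine integral_congr_ae (Filter.Eventually.of_forall fun w => ?_)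
      simp only
      have r1 : (c + Δ + (w : ℂ) * Complex.I).re = 1 / 2 + 2 * Δ := by simp [hcre, ha]; ring
      have r2 : (c + Δ + (w : ℂ) * Complex.I).im = t + w := by simp [hcim]
      have r3 : ‖riemannZeta (c + Δ + (w : ℂ) * Complex.I)‖ = zn (1 / 2 + 2 * Δ) (t + w) := by
        unfold zn
        rw [← r1, ← r2, Complex.re_add_im]
      rw [hFn, r3, r1, r2, Real.mul_rpow (mul_nonneg (zn_nonneg _ _) (Real.exp_pos _).le) (Real.exp_pos _).le,
        Real.mul_rpow (zn_nonneg _ _) (Real.exp_pos _).le, ← Real.exp_mul, ← Real.exp_mul]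
      rw [show κ * (1 / 2 + 2 * Δ - a) * p = p * m by rw [← hκΔ, ha]; ring,
        show ((1 / 2 + 2 * Δ - a) ^ 2 - (t + w - t) ^ 2) * p = p * (Δ ^ 2 - w ^ 2) by rw [ha]; ring]
      ring
    · refine integral_congr_ae (Filter.Eventually.of_forall fun w => ?_)
      simp only
      have r1 : (c - Δ + (w : ℂ) * Complex.I).re = 1 / 2 := by simp [hcre, ha]
      have r2 : (c - Δ + (w : ℂ) * Complex.I).im = t + w := by simp [hcim]
      have r3 : ‖riemannZeta (c - Δ + (w : ℂ) * Complex.I)‖ = zn (1 / 2) (t + w) := by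
        unfold zn
        rw [← r1, ← r2, Complex.re_add_im]
      rw [hFn, r3, r1, r2, Real.mul_rpow (mul_nonneg (zn_nonneg _ _) (Real.exp_pos _).le) (Real.exp_pos _).le,
        Real.mul_rpow (zn_nonneg _ _) (Real.exp_pos _).le, ← Real.exp_mul, ← Real.exp_mul]
      rw [show κ * (1 / 2 - a) * p = -(p * m) by rw [← hκΔ, ha]; ring,
        show ((1 / 2 - a) ^ 2 - (t + w - t) ^ 2) * p = p * (Δ ^ 2 - w ^ 2) by rw [ha]; ring]
      ring
  · intro z hz
    have hz' : |z.re - c.re| < Δ := hz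
    rw [hcre] at hz'
    have := (abs_lt.mp hz').2
    exact (hFd z (by linarith)).differentiableWithinAt
  · intro z hz
    have hz' : |z.re - c.re| ≤ Δ := hz
    rw [hcre] at hz'
    have := (abs_le.mp hz').2
    exact (hFd z (by linarith)).continuousAt.continuousWithinAt

theorem mid_fix {p Δ m T A : ℝ} (hp : 0 < p) (hp1 : p ≤ 1) (h0 : 0 < Δ) (h1 : Δ ≤ 1 / 8)
    (hT : 1 ≤ T) (hA0 : 0 ≤ A) (hA : ∀ w : ℝ, Real.exp (-(p * w ^ 2)) ≤ A * (1 + w ^ 2) ^ (-(16:ℝ))) :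
    ∫ t in (0:ℝ)..T, zn (1 / 2 + Δ) t ^ p ≤
      Real.exp (p * Δ ^ 2) / 2 *
        (Real.exp (p * m) * ((∫ t in (0:ℝ)..T, zn (1 / 2 + 2 * Δ) t ^ p) + 72 * T) +
         Real.exp (-(p * m)) * ((∫ t in (0:ℝ)..T, zn (1 / 2) t ^ p) + 72 * T)) +
      T * ((12 * Real.exp (p * m) + 12 * Real.exp (-(p * m))) * (1 + T)) *
        (2 * Real.pi * (Real.exp (p * Δ ^ 2) * A / Δ) * (T ^ ((1:ℝ)/4)) ^ (-(29:ℝ))) := by
  have hT0 : 0 < T := by linarith
  set X : ℝ := Real.exp (p * m) with hX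
  set Y : ℝ := Real.exp (-(p * m)) with hY
  have hX0 : 0 < X := Real.exp_pos _
  have hY0 : 0 < Y := Real.exp_pos _
  set U : ℝ := T ^ ((1:ℝ)/4) with hU
  have hU1 : 1 ≤ U := Real.one_le_rpow hT (by norm_num)
  set K : ℝ → ℝ := fun w => KS Δ w * Real.exp (p * (Δ ^ 2 - w ^ 2)) with hK
  have hKc : Continuous K := (KS_cont h0).mul (by fun_prop)
  have hK0 : ∀ w, 0 ≤ K w := fun w => mul_nonneg (KS_nonneg h0 w) (Real.exp_pos _).le
  have hKe : ∀ w, K w = Real.exp (p * Δ ^ 2) * (KS Δ w * Real.exp (-(p * w ^ 2))) := by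
    intro w
    simp only [hK]
    rw [show p * (Δ ^ 2 - w ^ 2) = p * Δ ^ 2 + -(p * w ^ 2) by ring, Real.exp_add]
    ring
  have hKb : ∀ w, K w ≤ (Real.exp (p * Δ ^ 2) * A / Δ) * (1 + w ^ 2) ^ (-(16:ℝ)) := by
    intro w
    rw [hKe]
    have := KS_le h0 w
    have h3 := hA w
    calc Real.exp (p * Δ ^ 2) * (KS Δ w * Real.exp (-(p * w ^ 2))) ≤
        Real.exp (p * Δ ^ 2) * (1 / Δ * (A * (1 + w ^ 2) ^ (-(16:ℝ)))) := by
          gcongr
      _ = _ := by ring
  obtain ⟨i1, i2, i3⟩ := tail_int (A := Real.exp (p * Δ ^ 2) * A / Δ) (U := U) (by positivity) hU1 hKc hK0 hKb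
  have hKm : ∫ w, K w ≤ Real.exp (p * Δ ^ 2) / 2 := by
    calc ∫ w, K w ≤ ∫ w, Real.exp (p * Δ ^ 2) * KS Δ w := by
          refine integral_mono i1 ((KS_integrable h0).const_mul _) fun w => ?_
          beta_reduce
          rw [hKe]
          have h3 : Real.exp (-(p * w ^ 2)) ≤ 1 := by
            rw [Real.exp_le_one_iff]
            have : 0 ≤ p * w ^ 2 := by positivity
            linarith
          have h4 := KS_nonneg h0 w
          have h5 : KS Δ w * Real.exp (-(p * w ^ 2)) ≤ KS Δ w := mul_le_of_le_one_right h4 h3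
          exact mul_le_mul_of_nonneg_left h5 (Real.exp_pos _).le
      _ = _ := by rw [integral_const_mul, KS_integral h0]; ring
  set G : ℝ → ℝ := fun x => X * zn (1 / 2 + 2 * Δ) x ^ p + Y * zn (1 / 2) x ^ p with hG
  have hc1 := zp_cont (σ := 1 / 2 + 2 * Δ) (by linarith) hp
  have hc2 := zp_cont (σ := 1 / 2) (by norm_num) hp
  have hcm := zp_cont (σ := 1 / 2 + Δ) (by linarith) hp
  have hGc : Continuous G := (continuous_const.mul hc1).add (continuous_const.mul hc2)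
  have hz1 : ∀ x, 0 ≤ zn (1 / 2 + 2 * Δ) x ^ p := fun x => Real.rpow_nonneg (zn_nonneg _ _) _
  have hz2 : ∀ x, 0 ≤ zn (1 / 2) x ^ p := fun x => Real.rpow_nonneg (zn_nonneg _ _) _
  have hG0 : ∀ x, 0 ≤ G x := fun x => by
    have := hz1 x
    have := hz2 x
    simp only [hG]
    positivity
  have hGB1 : ∀ x, X * zn (1 / 2 + 2 * Δ) x ^ p ≤ (12 * X) * (1 + |x|) := by
    intro x
    have := zp_le (x := x) hp hp1 (σ := 1 / 2 + 2 * Δ) (by linarith) (by linarith)
    calc X * zn (1 / 2 + 2 * Δ) x ^ p ≤ X * (12 * (1 + |x|)) := mul_le_mul_of_nonneg_left this hX0.le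
      _ = _ := by ring
  have hGB2 : ∀ x, Y * zn (1 / 2) x ^ p ≤ (12 * Y) * (1 + |x|) := by
    intro x
    have := zp_le (x := x) hp hp1 (σ := 1 / 2) (by norm_num) (by norm_num)
    calc Y * zn (1 / 2) x ^ p ≤ Y * (12 * (1 + |x|)) := mul_le_mul_of_nonneg_left this hY0.le
      _ = _ := by ring
  have hGB : ∀ x, G x ≤ (12 * X + 12 * Y) * (1 + |x|) := by
    intro x
    have h3 := hGB1 x
    have h4 := hGB2 x
    rw [add_mul]
    exact add_le_add h3 h4
  have hpt : ∀ t ∈ Set.Icc 0 T, zn (1 / 2 + Δ) t ^ p ≤ ∫ w, K w * G (t + w) := by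
    intro t _
    have h3 := mid_pt (t := t) (m := m) hp h0 h1
    have j1 := conv_int (G := fun x => X * zn (1 / 2 + 2 * Δ) x ^ p) (B := 12 * X)
      (by positivity) hKc hK0 i2 (continuous_const.mul hc1)
      (fun x => mul_nonneg hX0.le (hz1 x)) hGB1 t
    have j2 := conv_int (G := fun x => Y * zn (1 / 2) x ^ p) (B := 12 * Y)
      (by positivity) hKc hK0 i2 (continuous_const.mul hc2)
      (fun x => mul_nonneg hY0.le (hz2 x)) hGB2 t
    refine h3.trans (le_of_eq ?_)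
    rw [← integral_add j1 j2]
    refine integral_congr_ae (Eventually.of_forall fun w => ?_)
    simp only [hG, hK]
    ring
  have hmain := avg_le (K := K) (G := G) (H := fun t => zn (1 / 2 + Δ) t ^ p) (T := T) (U := U)
    (B := 12 * X + 12 * Y)
    hT0.le (by linarith) (by positivity) hKc hK0 i2 i1 hGc hG0 hGB hcm hpt
  refine hmain.trans (add_le_add ?_ (mul_le_mul_of_nonneg_left i3 (by positivity)))
  have hb2 : ∫ t in (-U)..(T + U), G t ≤
      X * ((∫ t in (0:ℝ)..T, zn (1 / 2 + 2 * Δ) t ^ p) + 72 * T) +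
         Y * ((∫ t in (0:ℝ)..T, zn (1 / 2) t ^ p) + 72 * T) := by
    have i4 : IntervalIntegrable (fun x => X * zn (1 / 2 + 2 * Δ) x ^ p) volume (-U) (T + U) :=
      (hc1.intervalIntegrable _ _).const_mul X
    have i5 : IntervalIntegrable (fun x => Y * zn (1 / 2) x ^ p) volume (-U) (T + U) :=
      (hc2.intervalIntegrable _ _).const_mul Y
    simp only [hG]
    rw [intervalIntegral.integral_add i4 i5, intervalIntegral.integral_const_mul,
      intervalIntegral.integral_const_mul, split_edges hc1 T U, split_edges hc2 T U]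
    have h3 := edges_zp (p := p) (σ := 1 / 2 + 2 * Δ) hp hp1 (by linarith) (by linarith) hT
    have h4 := edges_zp (p := p) (σ := 1 / 2) hp hp1 (by norm_num) (by norm_num) hT
    refine add_le_add (mul_le_mul_of_nonneg_left (by linarith) hX0.le)
      (mul_le_mul_of_nonneg_left (by linarith) hY0.le)
  have hE0 : 0 ≤ ∫ t in (-U)..(T + U), G t :=
    intervalIntegral.integral_nonneg (by linarith) fun x _ => hG0 x
  exact mul_le_mul hKm hb2 hE0 (by positivity)

variable {v : ℕ}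

theorem mid_ev (hv : 2 ≤ v) {δ l : ℝ} (hδ : 0 < δ) (hl : 0 < l) {η : ℝ} (hη : 0 < η) :
    ∀ᶠ T : ℝ in atTop, ∫ t in (0:ℝ)..T, zn (1 / 2 + δ / Real.log T) t ^ (2 / (v:ℝ)) ≤
      (1 / 2 + η) * (l * (∫ t in (0:ℝ)..T, zn (1 / 2 + 2 * δ / Real.log T) t ^ (2 / (v:ℝ))) +
        l⁻¹ * (∫ t in (0:ℝ)..T, zn (1 / 2) t ^ (2 / (v:ℝ))) + η * MM v T) := by
  obtain ⟨-, -, hp0, hp1⟩ := kv hv
  set p : ℝ := 2 / (v:ℝ) with hp
  set A : ℝ := Real.exp p * (Nat.factorial 16) / p ^ 16 with hA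
  have hA0 : 0 ≤ A := by positivity
  set m : ℝ := Real.log l / p with hm
  have hpm : p * m = Real.log l := by rw [hm]; field_simp
  have hX : Real.exp (p * m) = l := by rw [hpm, Real.exp_log hl]
  have hY : Real.exp (-(p * m)) = l⁻¹ := by rw [Real.exp_neg, hX]
  have hE : Tendsto (fun T : ℝ => Real.exp (p * (δ / Real.log T) ^ 2)) atTop (𝓝 1) := by
    have := (Real.continuous_exp.tendsto (p * 0 ^ 2)).comp (((delta_tendsto δ).pow 2).const_mul p)
    simpa [Function.comp_def] using this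
  have hF := hE.eventually_lt_const (show (1:ℝ) < 1 + 2 * η by linarith)
  have hΔ1 : ∀ᶠ T : ℝ in atTop, δ / Real.log T ≤ 1 / 8 :=
    ((delta_tendsto δ).eventually (gt_mem_nhds (show (0:ℝ) < 1/8 by norm_num))).mono fun _ h => h.le
  have hCT := CT_le (v := v) (by omega) (72 * l + 72 * l⁻¹ + 2) hη
  have hsm := small_pow (2 - 29 / 4) 1 (2 * (12 * l + 12 * l⁻¹) * (2 * Real.pi * (Real.exp p * A / δ)))
    (by norm_num)
  filter_upwards [hF, hΔ1, hCT, hsm, eventually_gt_atTop (Real.exp 1)] with T h1 h2 h3 h4 h5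
  have hT1 : 1 < T := lt_trans (by
    have := Real.add_one_lt_exp (show (1:ℝ) ≠ 0 by norm_num)
    linarith) h5
  have hT0 : 0 < T := by linarith
  have hL : 0 < Real.log T := Real.log_pos hT1
  have hΔ0 : 0 < δ / Real.log T := by positivity
  have hmain := mid_fix (T := T) (m := m) hp0 hp1 hΔ0 h2 hT1.le hA0 (gauss_poly hp0)
  rw [hX, hY, show 2 * (δ / Real.log T) = 2 * δ / Real.log T by ring] at hmain
  set Δ := δ / Real.log T with hΔ
  have hE1 : 1 ≤ Real.exp (p * Δ ^ 2) := Real.one_le_exp (by positivity)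
  have htail : T * ((12 * l + 12 * l⁻¹) * (1 + T)) * (2 * Real.pi * (Real.exp (p * Δ ^ 2) * A / Δ) *
        (T ^ ((1:ℝ)/4)) ^ (-(29:ℝ))) ≤ T := by
    have b1 : Real.exp (p * Δ ^ 2) ≤ Real.exp p := by
      refine Real.exp_le_exp.mpr ?_
      have : Δ ^ 2 ≤ 1 := by nlinarith
      nlinarith
    have b2 : (T ^ ((1:ℝ)/4)) ^ (-(29:ℝ)) = T ^ (-(29/4:ℝ)) := by
      rw [← Real.rpow_mul hT0.le]; norm_num
    have b3 : T * ((12 * l + 12 * l⁻¹) * (1 + T)) ≤ 2 * (12 * l + 12 * l⁻¹) * T ^ (2:ℝ) := by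
      have : T ^ (2:ℝ) = T ^ 2 := by exact_mod_cast Real.rpow_natCast T 2
      rw [this]
      have c1 : 1 + T ≤ 2 * T := by linarith
      have c2 : 0 ≤ T * (12 * l + 12 * l⁻¹) := by positivity
      nlinarith
    have b4 : T ^ (2:ℝ) * T ^ (-(29/4:ℝ)) = T ^ (2 - 29 / 4 : ℝ) := by
      rw [← Real.rpow_add hT0]; congr 1
    rw [b2]
    calc T * ((12 * l + 12 * l⁻¹) * (1 + T)) *
          (2 * Real.pi * (Real.exp (p * Δ ^ 2) * A / Δ) * T ^ (-(29/4:ℝ))) ≤
        (2 * (12 * l + 12 * l⁻¹) * T ^ (2:ℝ)) * (2 * Real.pi * (Real.exp p * A / Δ) * T ^ (-(29/4:ℝ))) := by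
          have hpi := Real.pi_pos
          gcongr
      _ = 2 * (12 * l + 12 * l⁻¹) * (2 * Real.pi * (Real.exp p * A / δ)) *
          (T ^ (2 - 29 / 4 : ℝ) * Real.log T ^ (1:ℝ)) := by
          rw [← b4, hΔ, Real.rpow_one]
          field_simp
      _ ≤ 1 := h4
      _ ≤ T := hT1.le
  have hZ1 : 0 ≤ ∫ t in (0:ℝ)..T, zn (1 / 2 + 2 * δ / Real.log T) t ^ p :=
    intervalIntegral.integral_nonneg hT0.le fun x _ => Real.rpow_nonneg (zn_nonneg _ _) _
  have hZ0 : 0 ≤ ∫ t in (0:ℝ)..T, zn (1 / 2) t ^ p :=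
    intervalIntegral.integral_nonneg hT0.le fun x _ => Real.rpow_nonneg (zn_nonneg _ _) _
  have hM := MM_pos (v := v) hT1
  set Z1 := ∫ t in (0:ℝ)..T, zn (1 / 2 + 2 * δ / Real.log T) t ^ p
  set Z0 := ∫ t in (0:ℝ)..T, zn (1 / 2) t ^ p
  have hl' : 0 < l⁻¹ := inv_pos.mpr hl
  have hW : 0 ≤ l * Z1 + l⁻¹ * Z0 + η * MM v T := by positivity
  calc ∫ t in (0:ℝ)..T, zn (1 / 2 + Δ) t ^ p ≤
      Real.exp (p * Δ ^ 2) / 2 * (l * (Z1 + 72 * T) + l⁻¹ * (Z0 + 72 * T)) + T :=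
        hmain.trans (add_le_add_right htail _)
    _ ≤ Real.exp (p * Δ ^ 2) / 2 * (l * (Z1 + 72 * T) + l⁻¹ * (Z0 + 72 * T)) +
        Real.exp (p * Δ ^ 2) / 2 * (2 * T) := by nlinarith
    _ = Real.exp (p * Δ ^ 2) / 2 * (l * Z1 + l⁻¹ * Z0 + (72 * l + 72 * l⁻¹ + 2) * T) := by ring
    _ ≤ Real.exp (p * Δ ^ 2) / 2 * (l * Z1 + l⁻¹ * Z0 + η * MM v T) := by
        refine mul_le_mul_of_nonneg_left (by linarith) (by positivity)
    _ ≤ _ := mul_le_mul_of_nonneg_right (by linarith) hW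

end Pool.Agent.Y756
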